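import Pool.Agent.Work.MP_2e5000_an.Defs

set_option autoImplicit false

open MeasureTheory Filter Topology

namespace Pool.Agent.Work.MP_2e5000_an

/-- square wave of half-period `2^k` with phase `a` -/
def mask (k a : ℕ) (i : ℤ) : Bool := decide ((i + a) % 2 ^ (k + 1) < 2 ^ k)

lemma mask_succ (k a : ℕ) (i : ℤ) : mask k a (i + 1) = mask k (a + 1) i := by
  unfold mask
  congr 2
  push_cast
  congr 1
  ring

lemma mask_period_a (k a : ℕ) (i : ℤ) : mask k (a + 2 ^ (k + 1)) i = mask k a i := by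
  unfold mask
  have : (i + ((a + 2 ^ (k + 1) : ℕ) : ℤ)) % 2 ^ (k + 1) = (i + a) % 2 ^ (k + 1) := by
    push_cast
    rw [← add_assoc, Int.add_emod_right]
  rw [this]

lemma sum_mask_shift {β : Type*} [AddCommGroup β] (k : ℕ) (g : (ℤ → Bool) → β) :
    ∑ a ∈ Finset.range (2 ^ (k + 1)), g (mask k (a + 1)) = ∑ a ∈ Finset.range (2 ^ (k + 1)), g (mask k a) := by
  have h1 := Finset.sum_range_succ (fun a => g (mask k a)) (2 ^ (k + 1))
  have h2 := Finset.sum_range_succ' (fun a => g (mask k a)) (2 ^ (k + 1))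
  rw [h1] at h2
  have h3 : mask k (2 ^ (k + 1)) = mask k 0 := by
    funext i
    have := mask_period_a k 0 i
    rwa [zero_add] at this
  rw [h3] at h2
  exact (add_right_cancel h2).symm

/-- sums over phases do not depend on translation of the wave -/
lemma sum_mask_translate {β : Type*} [AddCommGroup β] (k : ℕ) (g : (ℤ → Bool) → β) (m : ℤ) :
    ∑ a ∈ Finset.range (2 ^ (k + 1)), g (fun i => mask k a (i + m)) =
      ∑ a ∈ Finset.range (2 ^ (k + 1)), g (mask k a) := by
  have step : ∀ m : ℤ, ∑ a ∈ Finset.range (2 ^ (k + 1)), g (fun i => mask k a (i + (m + 1))) =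
      ∑ a ∈ Finset.range (2 ^ (k + 1)), g (fun i => mask k a (i + m)) := by
    intro m
    have h := sum_mask_shift k (fun w => g (fun i => w (i + m)))
    rw [← h]
    refine Finset.sum_congr rfl (fun a _ => ?_)
    congr 1
    funext i
    rw [← mask_succ]
    congr 1
    ring
  induction m using Int.induction_on with
  | zero => simp
  | succ m ih => rw [step, ih]
  | pred m ih =>
    have := step (-(m : ℤ) - 1)
    rw [sub_add_cancel] at this
    rw [← this, ih]

lemma mask_add_half (k a : ℕ) (i : ℤ) : mask k a (i + 2 ^ k) = !mask k a i := by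
  unfold mask
  set m : ℤ := 2 ^ k with hm
  have hm0 : 0 < m := by positivity
  have h2 : (2 : ℤ) ^ (k + 1) = 2 * m := by rw [hm, pow_succ]; ring
  rw [h2]
  set t : ℤ := i + a with ht
  have ht' : i + m + a = t + m := by rw [ht]; ring
  rw [ht']
  have hr0 : 0 ≤ t % (2 * m) := Int.emod_nonneg _ (by omega)
  have hr1 : t % (2 * m) < 2 * m := Int.emod_lt_of_pos _ (by omega)
  have key : (t + m) % (2 * m) = if t % (2 * m) < m then t % (2 * m) + m else t % (2 * m) - m := by
    have e : t + m = t % (2 * m) + m + (2 * m) * (t / (2 * m)) := by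
      have := Int.emod_add_mul_ediv t (2 * m)
      linarith
    conv_lhs => rw [e, Int.add_mul_emod_self_left]
    split_ifs with h
    · exact Int.emod_eq_of_lt (by omega) (by omega)
    · have : t % (2 * m) + m = (t % (2 * m) - m) + (2 * m) * 1 := by ring
      rw [this, Int.add_mul_emod_self_left]
      exact Int.emod_eq_of_lt (by omega) (by omega)
  rw [key]
  by_cases h : t % (2 * m) < m
  · simp [h]; omega
  · simp [h]; omega

lemma mask_period (k a : ℕ) (i : ℤ) : mask k a (i + 2 ^ (k + 1)) = mask k a i := by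
  have : i + 2 ^ (k + 1) = (i + 2 ^ k) + 2 ^ k := by rw [pow_succ]; ring
  rw [this, mask_add_half, mask_add_half, Bool.not_not]

/-- number of phases for which the wave is true at i -/
lemma count_mask (k : ℕ) (i : ℤ) :
    ∑ a ∈ Finset.range (2 ^ (k + 1)), (if mask k a i = true then (1 : ℝ) else 0) = 2 ^ k := by
  have h := sum_mask_translate k (fun w => if w 0 = true then (1 : ℝ) else 0) i
  simp only [zero_add] at h
  rw [h]
  have h2 : (2 : ℕ) ^ (k + 1) = 2 ^ k + 2 ^ k := by rw [pow_succ]; ring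
  have e1 : ∀ a ∈ Finset.range (2 ^ k), (if mask k a 0 = true then (1 : ℝ) else 0) = 1 := by
    intro a ha
    rw [Finset.mem_range] at ha
    rw [if_pos]
    unfold mask
    rw [decide_eq_true_eq, zero_add, Int.emod_eq_of_lt (by positivity)]
    · exact_mod_cast ha
    · have : a < 2 ^ (k + 1) := by omega
      exact_mod_cast this
  have e2 : ∀ a ∈ Finset.range (2 ^ k), (if mask k (2 ^ k + a) 0 = true then (1 : ℝ) else 0) = 0 := by
    intro a ha
    rw [Finset.mem_range] at ha
    rw [if_neg]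
    unfold mask
    rw [decide_eq_true_eq, zero_add, Int.emod_eq_of_lt (by positivity)]
    · push_cast
      have : (0 : ℤ) ≤ a := by positivity
      linarith
    · have : 2 ^ k + a < 2 ^ (k + 1) := by omega
      exact_mod_cast this
  rw [h2, Finset.sum_range_add, Finset.sum_congr rfl e1, Finset.sum_congr rfl e2]
  simp

/-- number of phases with a jump between i and i+1 -/
lemma count_jump (k : ℕ) (i : ℤ) :
    ∑ a ∈ Finset.range (2 ^ (k + 1)), (if mask k a i ≠ mask k a (i + 1) then (1 : ℝ) else 0) ≤ 2 := by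
  have h := sum_mask_translate k (fun w => if w 0 ≠ w 1 then (1 : ℝ) else 0) i
  simp only [zero_add, add_comm 1 i] at h
  rw [h]
  rw [← Finset.sum_filter]
  have hsub : (Finset.range (2 ^ (k + 1))).filter (fun a => mask k a 0 ≠ mask k a 1) ⊆ {2 ^ k - 1, 2 ^ (k + 1) - 1} := by
    intro a ha
    rw [Finset.mem_filter, Finset.mem_range] at ha
    obtain ⟨ha, hne⟩ := ha
    rw [Finset.mem_insert, Finset.mem_singleton]
    by_contra hcon
    push Not at hcon
    apply hne
    unfold mask
    have h2 : (2 : ℕ) ^ (k + 1) = 2 ^ k + 2 ^ k := by rw [pow_succ]; ring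
    have hpos : 0 < 2 ^ k := by positivity
    have e0 : (0 + (a : ℤ)) % 2 ^ (k + 1) = a := by
      rw [zero_add]
      apply Int.emod_eq_of_lt (by positivity)
      exact_mod_cast ha
    have e1 : (1 + (a : ℤ)) % 2 ^ (k + 1) = 1 + a := by
      apply Int.emod_eq_of_lt (by positivity)
      have : 1 + a < 2 ^ (k + 1) := by omega
      exact_mod_cast this
    rw [e0, e1]
    have h3 : (a : ℤ) < 2 ^ k ↔ a < 2 ^ k := by exact_mod_cast Iff.rfl
    have h4 : (1 + (a : ℤ)) < 2 ^ k ↔ 1 + a < 2 ^ k := by exact_mod_cast Iff.rfl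
    congr 1
    rw [h3, h4]
    apply propext
    constructor <;> intro h <;> omega
  calc _ ≤ ∑ a ∈ ({2 ^ k - 1, 2 ^ (k + 1) - 1} : Finset ℕ), (1 : ℝ) :=
        Finset.sum_le_sum_of_subset_of_nonneg hsub (fun _ _ _ => by norm_num)
    _ ≤ 2 := by
        rw [Finset.sum_const, nsmul_eq_mul, mul_one]
        exact_mod_cast Finset.card_le_two

/-- the wave is not constant on the window [0, 2^(l+1)) -/
def Nonconst (l k a : ℕ) : Prop := ∃ i : ℕ, i < 2 ^ (l + 1) ∧ mask k a i ≠ mask k a 0

lemma nonconst_jump (l k a : ℕ) (h : Nonconst l k a) :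
    ∃ i ∈ Finset.range (2 ^ (l + 1)), mask k a (i : ℤ) ≠ mask k a ((i : ℤ) + 1) := by
  by_contra hcon
  push Not at hcon
  obtain ⟨i, hi, hne⟩ := h
  apply hne
  have : ∀ j : ℕ, j < 2 ^ (l + 1) → mask k a (j : ℤ) = mask k a 0 := by
    intro j
    induction j with
    | zero => intro _; rfl
    | succ j ih =>
      intro hj
      have h1 := hcon j (Finset.mem_range.2 (by omega))
      push_cast
      rw [← h1, ih (by omega)]
  exact this i hi

open Classical in
lemma count_nonconst (l k : ℕ) :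
    ∑ a ∈ Finset.range (2 ^ (k + 1)), (if Nonconst l k a then (1 : ℝ) else 0) ≤ 2 ^ (l + 2) := by
  have h1 : ∀ a ∈ Finset.range (2 ^ (k + 1)), (if Nonconst l k a then (1 : ℝ) else 0) ≤
      ∑ i ∈ Finset.range (2 ^ (l + 1)), (if mask k a (i : ℤ) ≠ mask k a ((i : ℤ) + 1) then (1 : ℝ) else 0) := by
    intro a _
    split_ifs with h
    · obtain ⟨i, hi, hne⟩ := nonconst_jump l k a h
      calc (1 : ℝ) = (if mask k a (i : ℤ) ≠ mask k a ((i : ℤ) + 1) then (1 : ℝ) else 0) := by rw [if_pos hne]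
        _ ≤ _ := Finset.single_le_sum (f := fun i : ℕ => (if mask k a (i : ℤ) ≠ mask k a ((i : ℤ) + 1) then (1 : ℝ) else 0))
            (fun _ _ => by positivity) hi
    · exact Finset.sum_nonneg (fun _ _ => by positivity)
  refine (Finset.sum_le_sum h1).trans ?_
  rw [Finset.sum_comm]
  have h2 : ∀ i ∈ Finset.range (2 ^ (l + 1)),
      ∑ a ∈ Finset.range (2 ^ (k + 1)), (if mask k a (i : ℤ) ≠ mask k a ((i : ℤ) + 1) then (1 : ℝ) else 0) ≤ 2 := by
    intro i _
    convert count_jump k (i : ℤ)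
  refine (Finset.sum_le_sum h2).trans ?_
  rw [Finset.sum_const, Finset.card_range, nsmul_eq_mul]
  push_cast
  rw [pow_succ (2 : ℝ) (l + 1)]

/-! ### the finite shift-invariant measures `nu k` -/

def mulW (w x : X) : X := fun i => x i && w i

lemma measurable_shift : Measurable shift := by
  unfold shift
  exact measurable_pi_lambda _ (fun i => measurable_pi_apply (i + 1))

lemma measurable_mulW (w : X) : Measurable (mulW w) := by
  unfold mulW
  refine measurable_pi_lambda _ (fun i => ?_)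
  exact (measurable_of_finite (fun b : Bool => b && w i)).comp (measurable_pi_apply i)

noncomputable def dk (k : ℕ) : ℝ := 1 / (3 * ((k : ℝ) + 1))

lemma dk_pos (k : ℕ) : 0 < dk k := by unfold dk; positivity

lemma dk_le (k : ℕ) : dk k ≤ 1 / 3 := by
  unfold dk
  apply one_div_le_one_div_of_le (by norm_num)
  have : (0 : ℝ) ≤ k := by positivity
  linarith

noncomputable def nu : ℕ → Measure X
  | 0 => Measure.dirac (fun _ => true)
  | (k + 1) => ENNReal.ofReal (1 - dk k) • nu k +
      ENNReal.ofReal (dk k / 2 ^ k) • ∑ a ∈ Finset.range (2 ^ (k + 1)), (nu k).map (mulW (mask k a))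

instance finite_nu (k : ℕ) : IsFiniteMeasure (nu k) := by
  induction k with
  | zero => unfold nu; infer_instance
  | succ k ih =>
    unfold nu
    have h1 : IsFiniteMeasure (ENNReal.ofReal (1 - dk k) • nu k) := by
      refine ⟨?_⟩
      rw [Measure.smul_apply, smul_eq_mul]
      exact ENNReal.mul_lt_top ENNReal.ofReal_lt_top (measure_lt_top _ _)
    have h2 : IsFiniteMeasure (ENNReal.ofReal (dk k / 2 ^ k) • ∑ a ∈ Finset.range (2 ^ (k + 1)), (nu k).map (mulW (mask k a))) := by
      refine ⟨?_⟩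
      rw [Measure.smul_apply, smul_eq_mul, Measure.finsetSum_apply]
      refine ENNReal.mul_lt_top ENNReal.ofReal_lt_top ?_
      rw [ENNReal.sum_lt_top]
      intro a _
      exact measure_lt_top _ _
    infer_instance

lemma nu_real_succ (k : ℕ) (A : Set X) (hA : MeasurableSet A) :
    (nu (k + 1)).real A = (1 - dk k) * (nu k).real A +
      dk k / 2 ^ k * ∑ a ∈ Finset.range (2 ^ (k + 1)), (nu k).real (mulW (mask k a) ⁻¹' A) := by
  have h1 : 0 ≤ 1 - dk k := by have := dk_le k; linarith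
  have h2 : 0 ≤ dk k / 2 ^ k := by have := dk_pos k; positivity
  unfold Measure.real
  rw [nu, Measure.add_apply, Measure.smul_apply, Measure.smul_apply, Measure.finsetSum_apply, smul_eq_mul, smul_eq_mul]
  rw [ENNReal.toReal_add, ENNReal.toReal_mul, ENNReal.toReal_mul, ENNReal.toReal_ofReal h1, ENNReal.toReal_ofReal h2,
    ENNReal.toReal_sum]
  · congr 2
    refine Finset.sum_congr rfl (fun a _ => ?_)
    rw [Measure.map_apply (measurable_mulW _) hA]
  · intro a _; exact measure_ne_top _ _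
  · exact ENNReal.mul_ne_top ENNReal.ofReal_ne_top (measure_ne_top _ _)
  · refine ENNReal.mul_ne_top ENNReal.ofReal_ne_top ?_
    exact (ENNReal.sum_lt_top.2 (fun a _ => measure_lt_top _ _)).ne

lemma nu_shift (k : ℕ) : ∀ A : Set X, MeasurableSet A → (nu k).real (shift ⁻¹' A) = (nu k).real A := by
  induction k with
  | zero =>
    intro A hA
    unfold Measure.real nu
    rw [Measure.dirac_apply' _ hA, Measure.dirac_apply' _ (measurable_shift hA)]
    rfl
  | succ k ih =>
    intro A hA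
    rw [nu_real_succ k _ (measurable_shift hA), nu_real_succ k _ hA, ih A hA]
    congr 2
    rw [← sum_mask_shift k (fun w => (nu k).real (mulW w ⁻¹' A))]
    refine Finset.sum_congr rfl (fun a _ => ?_)
    rw [← ih _ (measurable_mulW _ hA)]
    congr 1
    ext x
    simp only [Set.mem_preimage]
    have : shift (mulW (mask k a) x) = mulW (mask k (a + 1)) (shift x) := by
      funext i
      simp only [shift, mulW, mask_succ]
    rw [this]

noncomputable def Wk (k : ℕ) : ℝ := ∏ j ∈ Finset.range k, (1 + dk j)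

lemma Wk_nonneg (k : ℕ) : 0 ≤ Wk k := Finset.prod_nonneg (fun j _ => by have := dk_pos j; linarith)

lemma one_le_Wk (k : ℕ) : 1 ≤ Wk k := by
  unfold Wk
  induction k with
  | zero => simp
  | succ k ih =>
    rw [Finset.prod_range_succ]
    have := dk_pos k
    nlinarith

lemma nu_univ (k : ℕ) : (nu k).real Set.univ = Wk k := by
  induction k with
  | zero => simp [nu, Wk, Measure.real]
  | succ k ih =>
    rw [nu_real_succ k _ MeasurableSet.univ]
    simp only [Set.preimage_univ, ih, Finset.sum_const, Finset.card_range, nsmul_eq_mul]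
    have hW : Wk (k + 1) = Wk k * (1 + dk k) := Finset.prod_range_succ _ _
    rw [hW]
    push_cast
    rw [pow_succ]
    field_simp
    ring

lemma nu_le (k : ℕ) (A : Set X) : (nu k).real A ≤ Wk k := by
  rw [← nu_univ]
  exact measureReal_mono (Set.subset_univ A)

lemma Wk_sq_le (k : ℕ) : Wk k ^ 2 ≤ k + 1 := by
  induction k with
  | zero => simp [Wk]
  | succ k ih =>
    rw [Wk, Finset.prod_range_succ, ← Wk, mul_pow]
    have h1 : (1 + dk k) ^ 2 * ((k : ℝ) + 1) ≤ k + 2 := by
      unfold dk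
      have hk : (0 : ℝ) ≤ k := by positivity
      field_simp
      nlinarith
    have h2 : 0 ≤ (1 + dk k) ^ 2 := by positivity
    push_cast
    calc Wk k ^ 2 * (1 + dk k) ^ 2 ≤ ((k : ℝ) + 1) * (1 + dk k) ^ 2 := by gcongr
      _ = (1 + dk k) ^ 2 * ((k : ℝ) + 1) := by ring
      _ ≤ k + 2 := h1
      _ = (k : ℝ) + 1 + 1 := by ring

lemma Wk_le (k : ℕ) : Wk k ≤ k + 1 := by
  have h1 := Wk_sq_le k
  have h2 := one_le_Wk k
  nlinarith

lemma dk_Wk_le (k : ℕ) : dk k * Wk k ≤ 1 / (3 * Real.sqrt (k + 1)) := by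
  have h1 : Wk k ≤ Real.sqrt (k + 1) := Real.le_sqrt_of_sq_le (Wk_sq_le k)
  have h3 : 0 < Real.sqrt ((k : ℝ) + 1) := Real.sqrt_pos.2 (by positivity)
  have h4 : Real.sqrt ((k : ℝ) + 1) * Real.sqrt ((k : ℝ) + 1) = k + 1 := Real.mul_self_sqrt (by positivity)
  calc dk k * Wk k ≤ dk k * Real.sqrt (k + 1) := by have := dk_pos k; gcongr
    _ = 1 / (3 * Real.sqrt (k + 1)) := by
      unfold dk
      rw [div_mul_eq_mul_div, one_mul, div_eq_div_iff (by positivity) (by positivity)]
      linear_combination 3 * h4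

/-! ### periodicity and the events `Ev l` -/

def Ev (l : ℕ) : Set X := {x | ∀ i : ℕ, i < 2 ^ l → x i = x (i + 2 ^ l)}

def Per (k : ℕ) : Set X := {x | ∀ i : ℤ, x (i + 2 ^ k) = x i}

lemma isClopen_eq (i j : ℤ) : IsClopen {x : X | x i = x j} := by
  have h : Continuous (fun x : X => decide (x i = x j)) := by
    have h2 : Continuous (fun p : Bool × Bool => decide (p.1 = p.2)) := continuous_of_discreteTopology
    have h4 : Continuous (fun x : X => (x i, x j)) := (continuous_apply i).prodMk (continuous_apply j)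
    exact h2.comp h4
  have h3 : {x : X | x i = x j} = (fun x : X => decide (x i = x j)) ⁻¹' {true} := by
    ext x; simp
  rw [h3]
  exact (isClopen_discrete _).preimage h

lemma isClopen_Ev (l : ℕ) : IsClopen (Ev l) := by
  have : Ev l = ⋂ i ∈ Finset.range (2 ^ l), {x : X | x (i : ℤ) = x ((i : ℤ) + 2 ^ l)} := by
    ext x; simp [Ev]
  rw [this]
  exact isClopen_biInter_finset (fun i _ => isClopen_eq _ _)

lemma measurableSet_Ev (l : ℕ) : MeasurableSet (Ev l) := (isClopen_Ev l).isClosed.measurableSet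

lemma measurableSet_Per (k : ℕ) : MeasurableSet (Per k) := by
  have : Per k = ⋂ i : ℤ, {x : X | x (i + 2 ^ k) = x i} := by
    ext x; simp [Per]
  rw [this]
  exact MeasurableSet.iInter (fun i => (isClopen_eq _ _).isClosed.measurableSet)

lemma Per_succ (k : ℕ) : Per k ⊆ Per (k + 1) := by
  intro x hx i
  have : i + 2 ^ (k + 1) = (i + 2 ^ k) + 2 ^ k := by rw [pow_succ]; ring
  rw [this, hx, hx]

lemma nu_Per (k : ℕ) : (nu k).real (Per k)ᶜ = 0 := by
  induction k with
  | zero =>
    unfold Measure.real nu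
    rw [Measure.dirac_apply' _ (measurableSet_Per 0).compl]
    have : (fun _ => true : X) ∉ (Per 0)ᶜ := by simp [Per]
    rw [Set.indicator_of_notMem this]; rfl
  | succ k ih =>
    rw [nu_real_succ k _ (measurableSet_Per (k + 1)).compl]
    have h1 : (nu k).real (Per (k + 1))ᶜ = 0 := by
      refine le_antisymm ?_ measureReal_nonneg
      rw [← ih]
      exact measureReal_mono (Set.compl_subset_compl.2 (Per_succ k))
    have h2 : ∀ a ∈ Finset.range (2 ^ (k + 1)), (nu k).real (mulW (mask k a) ⁻¹' (Per (k + 1))ᶜ) = 0 := by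
      intro a _
      refine le_antisymm ?_ measureReal_nonneg
      rw [← ih]
      refine measureReal_mono ?_
      intro x hx hx2
      apply hx
      intro i
      have h3 := Per_succ k hx2 i
      simp only [mulW, h3, mask_period]
    rw [h1, Finset.sum_congr rfl h2]
    simp

lemma nu_Ev_self (l : ℕ) : (nu l).real (Ev l)ᶜ = 0 := by
  refine le_antisymm ?_ measureReal_nonneg
  rw [← nu_Per l]
  refine measureReal_mono (Set.compl_subset_compl.2 ?_)
  intro x hx i _
  exact (hx i).symm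

open Classical in
lemma nu_Ev_step (l k : ℕ) : (nu (k + 1)).real (Ev l)ᶜ ≤ (nu k).real (Ev l)ᶜ + dk k * Wk k * (2 ^ (l + 2) / 2 ^ k) := by
  rw [nu_real_succ k _ (measurableSet_Ev l).compl]
  have hd := dk_pos k
  have hW := Wk_nonneg k
  have he : 0 ≤ (nu k).real (Ev l)ᶜ := measureReal_nonneg
  have h1 : ∀ a ∈ Finset.range (2 ^ (k + 1)), (nu k).real (mulW (mask k a) ⁻¹' (Ev l)ᶜ) ≤
      (if mask k a 0 = true then (1 : ℝ) else 0) * (nu k).real (Ev l)ᶜ + (if Nonconst l k a then (1 : ℝ) else 0) * Wk k := by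
    intro a _
    by_cases hn : Nonconst l k a
    · rw [if_pos hn, one_mul]
      have := nu_le k (mulW (mask k a) ⁻¹' (Ev l)ᶜ)
      have h3 : 0 ≤ (if mask k a 0 = true then (1 : ℝ) else 0) * (nu k).real (Ev l)ᶜ := by positivity
      linarith
    · rw [if_neg hn, zero_mul, add_zero]
      unfold Nonconst at hn
      push Not at hn
      have hi1 : ∀ i : ℕ, i < 2 ^ l → mask k a (i : ℤ) = mask k a 0 := fun i hi =>
        hn i (by rw [pow_succ]; omega)
      have hi2 : ∀ i : ℕ, i < 2 ^ l → mask k a ((i : ℤ) + 2 ^ l) = mask k a 0 := fun i hi => by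
        have := hn (i + 2 ^ l) (by rw [pow_succ]; omega)
        push_cast at this
        exact this
      by_cases h0 : mask k a 0 = true
      · rw [if_pos h0, one_mul]
        refine measureReal_mono ?_
        intro x hx hx2
        apply hx
        intro i hi
        simp only [mulW]
        rw [hi1 i hi, hi2 i hi, h0, hx2 i hi]
      · rw [if_neg h0, zero_mul]
        have : mulW (mask k a) ⁻¹' (Ev l)ᶜ = ∅ := by
          ext x
          simp only [Set.mem_preimage, Set.mem_compl_iff, Set.mem_empty_iff_false, iff_false, not_not]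
          intro i hi
          simp only [mulW]
          have h00 : mask k a 0 = false := by simpa using h0
          rw [hi1 i hi, hi2 i hi, h00]
          simp
        rw [this]
        simp
  have h2 : ∑ a ∈ Finset.range (2 ^ (k + 1)), (nu k).real (mulW (mask k a) ⁻¹' (Ev l)ᶜ) ≤
      2 ^ k * (nu k).real (Ev l)ᶜ + 2 ^ (l + 2) * Wk k := by
    refine (Finset.sum_le_sum h1).trans ?_
    rw [Finset.sum_add_distrib, ← Finset.sum_mul, ← Finset.sum_mul, count_mask]
    have := count_nonconst l k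
    gcongr
  have h3 : dk k / 2 ^ k * ∑ a ∈ Finset.range (2 ^ (k + 1)), (nu k).real (mulW (mask k a) ⁻¹' (Ev l)ᶜ) ≤
      dk k / 2 ^ k * (2 ^ k * (nu k).real (Ev l)ᶜ + 2 ^ (l + 2) * Wk k) := by
    gcongr
  calc _ ≤ (1 - dk k) * (nu k).real (Ev l)ᶜ + dk k / 2 ^ k * (2 ^ k * (nu k).real (Ev l)ᶜ + 2 ^ (l + 2) * Wk k) := by
        linarith
    _ = _ := by field_simp; ring

lemma nu_Ev_le (l m : ℕ) : (nu (l + m)).real (Ev l)ᶜ ≤
    (1 / (3 * Real.sqrt (l + 1))) * (4 * ∑ j ∈ Finset.range m, (1 / 2 : ℝ) ^ j) := by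
  induction m with
  | zero => simp [nu_Ev_self]
  | succ m ih =>
    have h1 := nu_Ev_step l (l + m)
    have h2 := dk_Wk_le (l + m)
    have h3 : 1 / (3 * Real.sqrt (((l + m : ℕ) : ℝ) + 1)) ≤ 1 / (3 * Real.sqrt (l + 1)) := by
      apply one_div_le_one_div_of_le
      · have : 0 < Real.sqrt ((l : ℝ) + 1) := Real.sqrt_pos.2 (by positivity)
        positivity
      · gcongr
        push_cast
        linarith [show (0 : ℝ) ≤ m by positivity]
    have h4 : (2 : ℝ) ^ (l + 2) / 2 ^ (l + m) = 4 * (1 / 2) ^ m := by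
      rw [pow_add, pow_add, one_div_pow]
      field_simp
      norm_num
    rw [h4] at h1
    rw [← add_assoc, Finset.sum_range_succ]
    have h5 : dk (l + m) * Wk (l + m) * (4 * (1 / 2 : ℝ) ^ m) ≤ 1 / (3 * Real.sqrt (l + 1)) * (4 * (1 / 2 : ℝ) ^ m) := by
      gcongr
      exact h2.trans h3
    calc _ ≤ _ := h1
      _ ≤ (1 / (3 * Real.sqrt (l + 1))) * (4 * ∑ j ∈ Finset.range m, (1 / 2 : ℝ) ^ j) +
          1 / (3 * Real.sqrt (l + 1)) * (4 * (1 / 2 : ℝ) ^ m) := add_le_add ih h5
      _ = _ := by ring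

lemma nu_Ev_bound (l k : ℕ) (h : l ≤ k) : (nu k).real (Ev l)ᶜ ≤ 3 / Real.sqrt (l + 1) := by
  obtain ⟨m, rfl⟩ := Nat.exists_eq_add_of_le h
  refine (nu_Ev_le l m).trans ?_
  have h1 : ∑ j ∈ Finset.range m, (1 / 2 : ℝ) ^ j ≤ 2 := by
    have := Summable.sum_le_tsum (Finset.range m) (fun i _ => by positivity) summable_geometric_two
    rwa [tsum_geometric_two] at this
  have h2 : 0 < Real.sqrt ((l : ℝ) + 1) := Real.sqrt_pos.2 (by positivity)
  calc (1 / (3 * Real.sqrt (l + 1))) * (4 * ∑ j ∈ Finset.range m, (1 / 2 : ℝ) ^ j)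
      ≤ (1 / (3 * Real.sqrt (l + 1))) * (4 * 2) := by gcongr
    _ = (8 / 3) / Real.sqrt (l + 1) := by field_simp; norm_num
    _ ≤ 3 / Real.sqrt (l + 1) := by gcongr; norm_num

/-! ### pair correlations -/

noncomputable def Tc (k : ℕ) (n : ℤ) : ℝ :=
  ∑ a ∈ Finset.range (2 ^ (k + 1)), (if mask k a 0 = true ∧ mask k a n = true then (1 : ℝ) else 0)

lemma Tc_nonneg (k : ℕ) (n : ℤ) : 0 ≤ Tc k n := Finset.sum_nonneg (fun _ _ => by positivity)

lemma Tc_add_half (k : ℕ) (n : ℤ) : Tc k n + Tc k (n + 2 ^ k) = 2 ^ k := by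
  unfold Tc
  rw [← Finset.sum_add_distrib, ← count_mask k 0]
  refine Finset.sum_congr rfl (fun a _ => ?_)
  rw [mask_add_half]
  cases mask k a 0 <;> cases mask k a n <;> simp

lemma Tc_le (k : ℕ) (n : ℤ) : Tc k n ≤ 2 ^ k := by
  have h1 := Tc_add_half k n
  have h2 := Tc_nonneg k (n + 2 ^ k)
  linarith

lemma Tc_period (k : ℕ) (n : ℤ) : Tc k (n + 2 ^ (k + 1)) = Tc k n := by
  unfold Tc
  refine Finset.sum_congr rfl (fun a _ => ?_)
  rw [mask_period]

lemma Tc_period' (k : ℕ) (n : ℤ) (m : ℕ) : Tc k (n + m * 2 ^ (k + 1)) = Tc k n := by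
  induction m with
  | zero => simp
  | succ m ih =>
    have : n + ((m + 1 : ℕ) : ℤ) * 2 ^ (k + 1) = (n + m * 2 ^ (k + 1)) + 2 ^ (k + 1) := by push_cast; ring
    rw [this, Tc_period, ih]

noncomputable def sk (k : ℕ) (n : ℤ) : ℝ := ∏ j ∈ Finset.range k, (1 - dk j + dk j / 2 ^ j * Tc j n)

lemma sk_factor_nonneg (j : ℕ) (n : ℤ) : 0 ≤ 1 - dk j + dk j / 2 ^ j * Tc j n := by
  have h1 := dk_le j
  have h2 := dk_pos j
  have h3 := Tc_nonneg j n
  have : 0 ≤ dk j / 2 ^ j * Tc j n := by positivity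
  linarith

lemma sk_factor_le (j : ℕ) (n : ℤ) : 1 - dk j + dk j / 2 ^ j * Tc j n ≤ 1 := by
  have h2 := dk_pos j
  have h3 := Tc_le j n
  have : dk j / 2 ^ j * Tc j n ≤ dk j / 2 ^ j * 2 ^ j := by gcongr
  rw [div_mul_cancel₀ _ (by positivity)] at this
  linarith

lemma sk_nonneg (k : ℕ) (n : ℤ) : 0 ≤ sk k n := Finset.prod_nonneg (fun j _ => sk_factor_nonneg j n)

lemma sk_succ (k : ℕ) (n : ℤ) : sk (k + 1) n = sk k n * (1 - dk k + dk k / 2 ^ k * Tc k n) :=
  Finset.prod_range_succ _ _

lemma sk_antitone (k m : ℕ) (n : ℤ) : sk (k + m) n ≤ sk k n := by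
  induction m with
  | zero => simp
  | succ m ih =>
    rw [← add_assoc, sk_succ]
    have h1 := sk_nonneg (k + m) n
    have h2 := sk_factor_le (k + m) n
    nlinarith

lemma sk_period (k : ℕ) (n : ℤ) : sk k (n + 2 ^ k) = sk k n := by
  unfold sk
  refine Finset.prod_congr rfl (fun j hj => ?_)
  rw [Finset.mem_range] at hj
  obtain ⟨d, rfl⟩ := Nat.exists_eq_add_of_lt hj
  have : n + (2 : ℤ) ^ (j + d + 1) = n + ((2 ^ d : ℕ) : ℤ) * 2 ^ (j + 1) := by
    push_cast; ring
  rw [this, Tc_period']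

noncomputable def Ak (l : ℕ) (m : ℤ) : ℝ := ∑ n ∈ Finset.range (2 ^ l), sk l (n + m)

lemma Ak_shift (l : ℕ) (m : ℤ) : Ak l (m + 1) = Ak l m := by
  unfold Ak
  have h1 := Finset.sum_range_succ (fun n : ℕ => sk l (n + m)) (2 ^ l)
  have h2 := Finset.sum_range_succ' (fun n : ℕ => sk l (n + m)) (2 ^ l)
  rw [h1] at h2
  have h3 : sk l (((2 ^ l : ℕ) : ℤ) + m) = sk l (((0 : ℕ) : ℤ) + m) := by
    have := sk_period l m
    push_cast
    rw [zero_add, add_comm, this]
  rw [h3] at h2
  have h4 := add_right_cancel h2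
  rw [h4]
  refine Finset.sum_congr rfl (fun n _ => ?_)
  congr 1
  push_cast; ring

lemma Ak_const (l : ℕ) (m : ℤ) : Ak l m = Ak l 0 := by
  induction m using Int.induction_on with
  | zero => rfl
  | succ m ih => rw [Ak_shift, ih]
  | pred m ih =>
    have := Ak_shift l (-(m : ℤ) - 1)
    rw [sub_add_cancel] at this
    rw [← this, ih]

lemma Ak_succ (l : ℕ) : Ak (l + 1) 0 = Ak l 0 * (2 - dk l) := by
  unfold Ak
  have h2 : (2 : ℕ) ^ (l + 1) = 2 ^ l + 2 ^ l := by rw [pow_succ]; ring
  rw [h2, Finset.sum_range_add, ← Finset.sum_add_distrib, Finset.sum_mul]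
  refine Finset.sum_congr rfl (fun n _ => ?_)
  simp only [add_zero]
  have e1 : (((2 ^ l + n : ℕ) : ℤ)) = (n : ℤ) + 2 ^ l := by push_cast; ring
  rw [e1, sk_succ, sk_succ, sk_period, ← mul_add]
  congr 1
  have h := Tc_add_half l (n : ℤ)
  have h3 : Tc l ((n : ℤ) + 2 ^ l) = 2 ^ l - Tc l n := by linarith
  rw [h3]
  field_simp
  ring

lemma Ak_eq (l : ℕ) : Ak l 0 = 2 ^ l * ∏ j ∈ Finset.range l, (1 - dk j / 2) := by
  induction l with
  | zero => simp [Ak, sk]
  | succ l ih =>
    rw [Ak_succ, ih, Finset.prod_range_succ, pow_succ]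
    ring

noncomputable def Vk (l : ℕ) : ℝ := ∏ j ∈ Finset.range l, (1 - dk j / 2)

lemma tendsto_Vk : Tendsto Vk atTop (𝓝 0) := by
  have h0 : ∀ l, 0 ≤ Vk l := fun l => Finset.prod_nonneg (fun j _ => by have := dk_le j; linarith)
  have h1 : ∀ l, Vk l ≤ Real.exp (-(1 / 6) * ∑ j ∈ Finset.range l, (1 : ℝ) / (j + 1)) := by
    intro l
    rw [Finset.mul_sum, Real.exp_sum]
    refine Finset.prod_le_prod (fun j _ => by have := dk_le j; linarith) (fun j _ => ?_)
    have h2 := Real.add_one_le_exp (-(1 / 6) * ((1 : ℝ) / (j + 1)))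
    refine le_trans (le_of_eq ?_) h2
    unfold dk
    field_simp
    ring
  have h2 : Tendsto (fun l : ℕ => Real.exp (-(1 / 6) * ∑ j ∈ Finset.range l, (1 : ℝ) / (j + 1))) atTop (𝓝 0) := by
    have h3 := Real.tendsto_sum_range_one_div_nat_succ_atTop
    have h4 : Tendsto (fun l : ℕ => -(1 / 6 : ℝ) * ∑ j ∈ Finset.range l, (1 : ℝ) / (j + 1)) atTop atBot :=
      h3.const_mul_atTop_of_neg (by norm_num)
    exact Real.tendsto_exp_atBot.comp h4
  exact squeeze_zero h0 h1 h2

lemma measurableSet_coord (i : ℤ) : MeasurableSet {x : X | x i = true} := by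
  have h : Measurable (fun x : X => x i) := measurable_pi_apply i
  exact h (measurableSet_singleton true)

/-- pair probabilities for nu -/
lemma nu_pair (k : ℕ) (i j : ℤ) : (nu k).real {x | x i = true ∧ x j = true} = sk k (j - i) := by
  have hm : ∀ i j : ℤ, MeasurableSet {x : X | x i = true ∧ x j = true} := by
    intro i j
    exact (measurableSet_coord i).inter (measurableSet_coord j)
  induction k with
  | zero =>
    unfold Measure.real nu
    rw [Measure.dirac_apply' _ (hm i j)]
    simp [sk]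
  | succ k ih =>
    rw [nu_real_succ k _ (hm i j), ih, sk_succ]
    have h1 : ∀ a ∈ Finset.range (2 ^ (k + 1)), (nu k).real (mulW (mask k a) ⁻¹' {x | x i = true ∧ x j = true}) =
        (if mask k a i = true ∧ mask k a j = true then (1 : ℝ) else 0) * sk k (j - i) := by
      intro a _
      split_ifs with h
      · rw [one_mul, ← ih]
        congr 1
        ext x
        simp [mulW, h.1, h.2]
      · rw [zero_mul]
        have : mulW (mask k a) ⁻¹' {x | x i = true ∧ x j = true} = ∅ := by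
          ext x
          simp only [Set.mem_preimage, Set.mem_ofPred_eq, mulW, Bool.and_eq_true, Set.mem_empty_iff_false, iff_false]
          tauto
        rw [this]; simp
    rw [Finset.sum_congr rfl h1, ← Finset.sum_mul]
    have h2 : ∑ a ∈ Finset.range (2 ^ (k + 1)), (if mask k a i = true ∧ mask k a j = true then (1 : ℝ) else 0) = Tc k (j - i) := by
      have := sum_mask_translate k (fun w => if w 0 = true ∧ w (j - i) = true then (1 : ℝ) else 0) i
      simp only [zero_add, sub_add_cancel] at this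
      exact this
    rw [h2]
    ring

lemma Tc_zero (k : ℕ) : Tc k 0 = 2 ^ k := by
  unfold Tc
  rw [← count_mask k 0]
  refine Finset.sum_congr rfl (fun a _ => ?_)
  simp

lemma sk_zero (k : ℕ) : sk k 0 = 1 := by
  unfold sk
  refine Finset.prod_eq_one (fun j _ => ?_)
  rw [Tc_zero]
  field_simp
  ring

lemma nu_one (k : ℕ) (i : ℤ) : (nu k).real {x | x i = true} = 1 := by
  have := nu_pair k i i
  rw [sub_self, sk_zero] at this
  simpa using this

/-! ### multiplicative functions and convolution powers -/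

def xorX (x y : X) : X := fun i => xor (x i) (y i)

lemma measurable_xorX : Measurable (fun p : X × X => xorX p.1 p.2) := by
  unfold xorX
  refine measurable_pi_lambda _ (fun i => ?_)
  have h1 : Measurable (fun p : Bool × Bool => xor p.1 p.2) := measurable_of_finite _
  have h2 : Measurable (fun p : X × X => (p.1 i, p.2 i)) :=
    ((measurable_pi_apply i).comp measurable_fst).prodMk ((measurable_pi_apply i).comp measurable_snd)
  exact h1.comp h2

noncomputable def conv (μ ρ : Measure X) : Measure X := (μ.prod ρ).map (fun p => xorX p.1 p.2)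

instance (μ ρ : Measure X) [IsProbabilityMeasure μ] [IsProbabilityMeasure ρ] : IsProbabilityMeasure (conv μ ρ) := by
  unfold conv
  exact Measure.isProbabilityMeasure_map measurable_xorX.aemeasurable

/-- a measurable sign-valued function which is multiplicative with respect to xor -/
structure IsChar (ψ : X → ℝ) : Prop where
  meas : Measurable ψ
  mul : ∀ x y, ψ (xorX x y) = ψ x * ψ y
  sq : ∀ x, ψ x = 1 ∨ ψ x = -1
  one : ψ (fun _ => false) = 1

lemma IsChar.integrable {ψ : X → ℝ} (h : IsChar ψ) (μ : Measure X) [IsFiniteMeasure μ] : Integrable ψ μ := by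
  refine Integrable.of_bound (C := 1) h.meas.aestronglyMeasurable (Eventually.of_forall fun x => ?_)
  rcases h.sq x with h | h <;> simp [h]

lemma IsChar.integral_conv {ψ : X → ℝ} (h : IsChar ψ) (μ ρ : Measure X) [IsProbabilityMeasure μ] [IsProbabilityMeasure ρ] :
    ∫ x, ψ x ∂(conv μ ρ) = (∫ x, ψ x ∂μ) * ∫ x, ψ x ∂ρ := by
  unfold conv
  rw [integral_map measurable_xorX.aemeasurable h.meas.aestronglyMeasurable]
  simp only [h.mul]
  exact integral_prod_mul ψ ψ

lemma IsChar.integral_eq {ψ : X → ℝ} (h : IsChar ψ) (ρ : Measure X) [IsFiniteMeasure ρ] :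
    ∫ x, ψ x ∂ρ = ρ.real Set.univ - 2 * ρ.real {x | ψ x = -1} := by
  have hm : MeasurableSet {x | ψ x = -1} := h.meas (measurableSet_singleton (-1))
  have h1 : ∀ x, ψ x = 1 - 2 * Set.indicator {x | ψ x = -1} (fun _ => (1 : ℝ)) x := by
    intro x
    rcases h.sq x with h | h
    · rw [Set.indicator_of_notMem]
      · rw [h]; ring
      · simp [h]; norm_num
    · rw [Set.indicator_of_mem]
      · rw [h]; ring
      · exact h
  rw [integral_congr_ae (Eventually.of_forall h1), integral_sub (integrable_const _)]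
  · rw [integral_const, integral_const_mul, integral_indicator hm, setIntegral_const]
    simp
  · exact ((integrable_const (1 : ℝ)).indicator hm).const_mul 2

/-- the single-copy law -/
noncomputable def rho (k M : ℕ) : Measure X :=
  ENNReal.ofReal (1 - Wk k / M) • Measure.dirac (fun _ => false) + ENNReal.ofReal (1 / M) • nu k

lemma rho_real (k M : ℕ) (hM : Wk k ≤ M) (A : Set X) (hA : MeasurableSet A) :
    (rho k M).real A = (1 - Wk k / M) * (Measure.dirac (fun _ => false : X)).real A + (1 / M) * (nu k).real A := by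
  have h0 : (0 : ℝ) < M := lt_of_lt_of_le (by have := one_le_Wk k; linarith) hM
  have h1 : 0 ≤ 1 - Wk k / M := by
    rw [sub_nonneg, div_le_one h0]; exact hM
  unfold Measure.real rho
  rw [Measure.add_apply, Measure.smul_apply, Measure.smul_apply, smul_eq_mul, smul_eq_mul, ENNReal.toReal_add,
    ENNReal.toReal_mul, ENNReal.toReal_mul, ENNReal.toReal_ofReal h1, ENNReal.toReal_ofReal (by positivity)]
  · exact ENNReal.mul_ne_top ENNReal.ofReal_ne_top (measure_ne_top _ _)
  · exact ENNReal.mul_ne_top ENNReal.ofReal_ne_top (measure_ne_top _ _)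

lemma rho_prob (k M : ℕ) (hM : Wk k ≤ M) : IsProbabilityMeasure (rho k M) := by
  have h0 : (0 : ℝ) < M := lt_of_lt_of_le (by have := one_le_Wk k; linarith) hM
  have h1 := rho_real k M hM Set.univ MeasurableSet.univ
  rw [nu_univ] at h1
  have h2 : (Measure.dirac (fun _ => false : X)).real Set.univ = 1 := by simp
  rw [h2] at h1
  have h3 : (rho k M).real Set.univ = 1 := by rw [h1]; field_simp; ring
  refine ⟨?_⟩
  unfold Measure.real at h3
  have h4 : (rho k M) Set.univ ≠ ⊤ := by
    intro h; rw [h] at h3; simp at h3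
  rw [← ENNReal.ofReal_toReal h4, h3]; simp

/-- `m`-fold convolution power of `rho` -/
noncomputable def pw (k M : ℕ) : ℕ → Measure X
  | 0 => Measure.dirac (fun _ => false)
  | (m + 1) => conv (pw k M m) (rho k M)

lemma pw_prob (k M : ℕ) (hM : Wk k ≤ M) (m : ℕ) : IsProbabilityMeasure (pw k M m) := by
  induction m with
  | zero => unfold pw; infer_instance
  | succ m ih =>
    have := rho_prob k M hM
    unfold pw; infer_instance

lemma IsChar.integral_rho {ψ : X → ℝ} (h : IsChar ψ) (k M : ℕ) (hM : Wk k ≤ M) :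
    ∫ x, ψ x ∂(rho k M) = 1 - 2 * ((nu k).real {x | ψ x = -1} / M) := by
  have := rho_prob k M hM
  have hm : MeasurableSet {x | ψ x = -1} := h.meas (measurableSet_singleton (-1))
  rw [h.integral_eq, rho_real k M hM _ hm]
  have h1 : (Measure.dirac (fun _ => false : X)).real {x | ψ x = -1} = 0 := by
    unfold Measure.real
    rw [Measure.dirac_apply' _ hm, Set.indicator_of_notMem]
    · rfl
    · simp only [Set.mem_ofPred_eq, h.one]; norm_num
  rw [h1]
  simp
  ring

lemma IsChar.integral_pw {ψ : X → ℝ} (h : IsChar ψ) (k M : ℕ) (hM : Wk k ≤ M) (m : ℕ) :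
    ∫ x, ψ x ∂(pw k M m) = (1 - 2 * ((nu k).real {x | ψ x = -1} / M)) ^ m := by
  have := rho_prob k M hM
  induction m with
  | zero => rw [pw, integral_dirac, h.one, pow_zero]
  | succ m ih =>
    have := pw_prob k M hM m
    rw [pw, h.integral_conv, ih, h.integral_rho k M hM, pow_succ]

lemma shift_xorX (x y : X) : shift (xorX x y) = xorX (shift x) (shift y) := rfl

lemma map_shift_of_real (μ : Measure X) [IsFiniteMeasure μ] (h : ∀ A, MeasurableSet A → μ.real (shift ⁻¹' A) = μ.real A) :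
    μ.map shift = μ := by
  ext A hA
  rw [Measure.map_apply measurable_shift hA]
  have := h A hA
  unfold Measure.real at this
  rwa [ENNReal.toReal_eq_toReal_iff' (measure_ne_top _ _) (measure_ne_top _ _)] at this

lemma conv_shift (μ ρ : Measure X) [IsProbabilityMeasure μ] [IsProbabilityMeasure ρ]
    (h1 : μ.map shift = μ) (h2 : ρ.map shift = ρ) : (conv μ ρ).map shift = conv μ ρ := by
  unfold conv
  rw [Measure.map_map measurable_shift measurable_xorX]
  have e : shift ∘ (fun p : X × X => xorX p.1 p.2) = (fun p : X × X => xorX p.1 p.2) ∘ (Prod.map shift shift) := by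
    funext p; rfl
  rw [e, ← Measure.map_map measurable_xorX (measurable_shift.prodMap measurable_shift),
    ← Measure.map_prod_map _ _ measurable_shift measurable_shift, h1, h2]

lemma rho_shift (k M : ℕ) (hM : Wk k ≤ M) : (rho k M).map shift = rho k M := by
  have := rho_prob k M hM
  apply map_shift_of_real
  intro A hA
  rw [rho_real k M hM _ (measurable_shift hA), rho_real k M hM _ hA, nu_shift k A hA]
  congr 2
  unfold Measure.real
  rw [Measure.dirac_apply' _ hA, Measure.dirac_apply' _ (measurable_shift hA)]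
  rfl

lemma pw_shift (k M : ℕ) (hM : Wk k ≤ M) (m : ℕ) : (pw k M m).map shift = pw k M m := by
  have := rho_prob k M hM
  induction m with
  | zero =>
    rw [pw, Measure.map_dirac' measurable_shift]; rfl
  | succ m ih =>
    have := pw_prob k M hM m
    rw [pw]
    exact conv_shift _ _ ih (rho_shift k M hM)

lemma xorX_mem_Ev (l : ℕ) (x y : X) (hx : x ∈ Ev l) (hy : y ∈ Ev l) : xorX x y ∈ Ev l := by
  intro i hi
  simp only [xorX, hx i hi, hy i hi]

lemma conv_Ev (l : ℕ) (μ ρ : Measure X) [IsProbabilityMeasure μ] [IsProbabilityMeasure ρ] :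
    (conv μ ρ).real (Ev l)ᶜ ≤ μ.real (Ev l)ᶜ + ρ.real (Ev l)ᶜ := by
  unfold conv Measure.real
  rw [Measure.map_apply measurable_xorX (measurableSet_Ev l).compl]
  have hsub : (fun p : X × X => xorX p.1 p.2) ⁻¹' (Ev l)ᶜ ⊆ ((Ev l)ᶜ ×ˢ Set.univ) ∪ (Set.univ ×ˢ (Ev l)ᶜ) := by
    rintro ⟨x, y⟩ h
    by_contra hcon
    apply h
    simp only [Set.mem_union, Set.mem_prod, Set.mem_compl_iff, Set.mem_univ, and_true, true_and, not_or, not_not] at hcon
    exact xorX_mem_Ev l x y hcon.1 hcon.2
  have h1 : (μ.prod ρ) ((fun p : X × X => xorX p.1 p.2) ⁻¹' (Ev l)ᶜ) ≤ μ (Ev l)ᶜ + ρ (Ev l)ᶜ := by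
    refine (measure_mono hsub).trans ((measure_union_le _ _).trans ?_)
    rw [Measure.prod_prod, Measure.prod_prod, measure_univ, measure_univ, mul_one, one_mul]
  rw [← ENNReal.toReal_add (measure_ne_top _ _) (measure_ne_top _ _)]
  exact ENNReal.toReal_mono (by finiteness) h1

lemma rho_Ev (l k M : ℕ) (hM : Wk k ≤ M) : (rho k M).real (Ev l)ᶜ = (nu k).real (Ev l)ᶜ / M := by
  rw [rho_real k M hM _ (measurableSet_Ev l).compl]
  have h1 : (Measure.dirac (fun _ => false : X)).real (Ev l)ᶜ = 0 := by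
    unfold Measure.real
    rw [Measure.dirac_apply' _ (measurableSet_Ev l).compl, Set.indicator_of_notMem]
    · rfl
    · simp [Ev]
  rw [h1]; ring

lemma pw_Ev (l k M : ℕ) (hM : Wk k ≤ M) (m : ℕ) : (pw k M m).real (Ev l)ᶜ ≤ m * ((nu k).real (Ev l)ᶜ / M) := by
  have := rho_prob k M hM
  induction m with
  | zero =>
    rw [pw]
    unfold Measure.real
    rw [Measure.dirac_apply' _ (measurableSet_Ev l).compl, Set.indicator_of_notMem]
    · simp
    · simp [Ev]
  | succ m ih =>
    have := pw_prob k M hM m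
    rw [pw]
    refine (conv_Ev l _ _).trans ?_
    rw [rho_Ev l k M hM]
    push_cast
    linarith

lemma pow_sub_pow_le (A B : ℝ) (hA : |A| ≤ 1) (hB : |B| ≤ 1) (m : ℕ) : |A ^ m - B ^ m| ≤ m * |A - B| := by
  induction m with
  | zero => simp
  | succ m ih =>
    have e : A ^ (m + 1) - B ^ (m + 1) = A ^ m * (A - B) + (A ^ m - B ^ m) * B := by ring
    rw [e]
    refine (abs_add_le _ _).trans ?_
    rw [abs_mul, abs_mul, abs_pow]
    have h1 : |A| ^ m ≤ 1 := pow_le_one₀ (abs_nonneg _) hA
    have h2 := abs_nonneg (A - B)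
    have h3 := abs_nonneg (A ^ m - B ^ m)
    push_cast
    calc |A| ^ m * |A - B| + |A ^ m - B ^ m| * |B| ≤ 1 * |A - B| + |A ^ m - B ^ m| * 1 := by gcongr
      _ ≤ 1 * |A - B| + (m * |A - B|) * 1 := by gcongr
      _ = _ := by ring

/-! ### Walsh functions -/

noncomputable def sg (b : Bool) : ℝ := if b then -1 else 1

lemma sg_xor (a b : Bool) : sg (xor a b) = sg a * sg b := by
  cases a <;> cases b <;> simp [sg]

lemma sg_sq (b : Bool) : sg b = 1 ∨ sg b = -1 := by cases b <;> simp [sg]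

lemma sg_mul_self (b : Bool) : sg b * sg b = 1 := by cases b <;> simp [sg]

noncomputable def chi (S : Finset ℤ) (x : X) : ℝ := ∏ i ∈ S, sg (x i)

lemma continuous_chi (S : Finset ℤ) : Continuous (chi S) := by
  unfold chi
  refine continuous_finsetProd _ (fun i _ => ?_)
  have h : Continuous sg := continuous_of_discreteTopology
  exact h.comp (continuous_apply i)

lemma isChar_one : IsChar (fun _ => (1 : ℝ)) := ⟨measurable_const, fun _ _ => by simp, fun _ => Or.inl rfl, rfl⟩

lemma IsChar.mul' {ψ φ : X → ℝ} (h1 : IsChar ψ) (h2 : IsChar φ) : IsChar (fun x => ψ x * φ x) := by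
  refine ⟨h1.meas.mul h2.meas, fun x y => ?_, fun x => ?_, ?_⟩
  · simp only [h1.mul, h2.mul]; ring
  · rcases h1.sq x with a | a <;> rcases h2.sq x with b | b <;> simp [a, b]
  · simp only [h1.one, h2.one, mul_one]

lemma isChar_chi (S : Finset ℤ) : IsChar (chi S) := by
  refine ⟨(continuous_chi S).measurable, fun x y => ?_, fun x => ?_, ?_⟩
  · unfold chi
    rw [← Finset.prod_mul_distrib]
    refine Finset.prod_congr rfl (fun i _ => ?_)
    rw [xorX, sg_xor]
  · unfold chi
    induction S using Finset.induction_on with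
    | empty => simp
    | insert i S hi ih =>
      rw [Finset.prod_insert hi]
      rcases sg_sq (x i) with a | a <;> rcases ih with b | b <;> simp [a, b]
  · unfold chi
    simp [sg]

lemma shift_iterate (n : ℕ) (x : X) (i : ℤ) : (shift^[n] x) i = x (i + n) := by
  induction n generalizing x i with
  | zero => simp
  | succ n ih =>
    rw [Function.iterate_succ_apply, ih]
    simp only [shift]
    congr 1
    push_cast; ring

lemma measurable_shift_iterate (n : ℕ) : Measurable (shift^[n]) := measurable_shift.iterate n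

lemma continuous_shift : Continuous shift := by
  unfold shift
  exact continuous_pi (fun i => continuous_apply (i + 1))

lemma IsChar.comp_shift {ψ : X → ℝ} (h : IsChar ψ) (n : ℕ) : IsChar (fun x => ψ (shift^[n] x)) := by
  refine ⟨h.meas.comp (measurable_shift_iterate n), fun x y => ?_, fun x => h.sq _, ?_⟩
  · rw [← h.mul]
    congr 1
    funext i
    simp only [shift_iterate, xorX]
  · have : shift^[n] (fun _ => false : X) = (fun _ => false) := by
      funext i; rw [shift_iterate]
    rw [this, h.one]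

lemma cov_pw (k M : ℕ) (hM : Wk k ≤ M) {ψ φ : X → ℝ} (h1 : IsChar ψ) (h2 : IsChar φ) :
    |∫ x, ψ x * φ x ∂(pw k M M) - (∫ x, ψ x ∂(pw k M M)) * ∫ x, φ x ∂(pw k M M)| ≤
      4 * (nu k).real {x | ψ x = -1 ∧ φ x = -1} +
      4 * ((nu k).real {x | ψ x = -1} * (nu k).real {x | φ x = -1}) / M := by
  have h0 : (0 : ℝ) < M := lt_of_lt_of_le (by have := one_le_Wk k; linarith) hM
  rw [(h1.mul' h2).integral_pw k M hM, h1.integral_pw k M hM, h2.integral_pw k M hM, ← mul_pow]
  have m1 : MeasurableSet {x | ψ x = -1} := h1.meas (measurableSet_singleton (-1))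
  have m2 : MeasurableSet {x | φ x = -1} := h2.meas (measurableSet_singleton (-1))
  set p := (nu k).real {x | ψ x = -1} with hp
  set q := (nu k).real {x | φ x = -1} with hq
  set r := (nu k).real {x | ψ x = -1 ∧ φ x = -1} with hr
  have hp0 : 0 ≤ p := measureReal_nonneg
  have hq0 : 0 ≤ q := measureReal_nonneg
  have hr0 : 0 ≤ r := measureReal_nonneg
  have hpM : p ≤ M := (nu_le k _).trans hM
  have hqM : q ≤ M := (nu_le k _).trans hM
  set t := (nu k).real {x | ψ x * φ x = -1} with ht
  have ht0 : 0 ≤ t := measureReal_nonneg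
  have htM : t ≤ M := (nu_le k _).trans hM
  have htr : t = p + q - 2 * r := by
    have e1 : {x | ψ x * φ x = -1} = ({x | ψ x = -1} \ {x | ψ x = -1 ∧ φ x = -1}) ∪ ({x | φ x = -1} \ {x | ψ x = -1 ∧ φ x = -1}) := by
      ext x
      simp only [Set.mem_ofPred_eq, Set.mem_union, Set.mem_sdiff]
      rcases h1.sq x with a | a <;> rcases h2.sq x with b | b <;> simp [a, b] <;> norm_num
    have hdis : Disjoint ({x | ψ x = -1} \ {x | ψ x = -1 ∧ φ x = -1}) ({x | φ x = -1} \ {x | ψ x = -1 ∧ φ x = -1}) := by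
      rw [Set.disjoint_left]
      rintro x ⟨a1, a2⟩ ⟨b1, _⟩
      exact a2 ⟨a1, b1⟩
    have m3 : MeasurableSet {x | ψ x = -1 ∧ φ x = -1} := m1.inter m2
    have s1 : {x | ψ x = -1 ∧ φ x = -1} ⊆ {x | ψ x = -1} := fun x h => h.1
    have s2 : {x | ψ x = -1 ∧ φ x = -1} ⊆ {x | φ x = -1} := fun x h => h.2
    rw [ht, e1, measureReal_union hdis (m2.diff m3), measureReal_sdiff s1 m3, measureReal_sdiff s2 m3]
    ring
  have hA : |1 - 2 * (t / M)| ≤ 1 := by
    rw [abs_le]
    have : t / M ≤ 1 := by rw [div_le_one h0]; exact htM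
    have : 0 ≤ t / M := by positivity
    constructor <;> linarith
  have hB1 : |1 - 2 * (p / M)| ≤ 1 := by
    rw [abs_le]
    have : p / M ≤ 1 := by rw [div_le_one h0]; exact hpM
    have : 0 ≤ p / M := by positivity
    constructor <;> linarith
  have hB2 : |1 - 2 * (q / M)| ≤ 1 := by
    rw [abs_le]
    have : q / M ≤ 1 := by rw [div_le_one h0]; exact hqM
    have : 0 ≤ q / M := by positivity
    constructor <;> linarith
  have hB : |(1 - 2 * (p / M)) * (1 - 2 * (q / M))| ≤ 1 := by
    rw [abs_mul]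
    exact mul_le_one₀ hB1 (abs_nonneg _) hB2
  refine (pow_sub_pow_le _ _ hA hB M).trans ?_
  have e2 : 1 - 2 * (t / M) - (1 - 2 * (p / M)) * (1 - 2 * (q / M)) = 4 * r / M - 4 * (p * q) / M / M := by
    rw [htr]; field_simp; ring
  rw [e2]
  have e3 : |4 * r / M - 4 * (p * q) / M / M| ≤ 4 * r / M + 4 * (p * q) / M / M := by
    have a1 : 0 ≤ 4 * r / M := by positivity
    have a2 : 0 ≤ 4 * (p * q) / M / M := by positivity
    rw [abs_le]; constructor <;> linarith
  calc (M : ℝ) * |4 * r / M - 4 * (p * q) / M / M| ≤ M * (4 * r / M + 4 * (p * q) / M / M) := by gcongr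
    _ = _ := by field_simp

lemma chi_neg_subset (S : Finset ℤ) (x : X) (h : chi S x = -1) : ∃ i ∈ S, x i = true := by
  by_contra hcon
  push Not at hcon
  have : chi S x = 1 := by
    unfold chi
    refine Finset.prod_eq_one (fun i hi => ?_)
    have := hcon i hi
    simp at this
    simp [sg, this]
  rw [this] at h
  norm_num at h

lemma nu_chi_le (k : ℕ) (S : Finset ℤ) : (nu k).real {x | chi S x = -1} ≤ S.card := by
  have h1 : {x | chi S x = -1} ⊆ ⋃ i ∈ S, {x : X | x i = true} := by
    intro x hx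
    obtain ⟨i, hi, h⟩ := chi_neg_subset S x hx
    simp only [Set.mem_iUnion]
    exact ⟨i, hi, h⟩
  refine (measureReal_mono h1 (measure_ne_top _ _)).trans ((measureReal_biUnion_finset_le _ _).trans ?_)
  simp [nu_one]

lemma nu_chi_shift_le (k : ℕ) (S : Finset ℤ) (n : ℕ) : (nu k).real {x | chi S (shift^[n] x) = -1} ≤ S.card := by
  have h1 : {x | chi S (shift^[n] x) = -1} ⊆ ⋃ i ∈ S, {x : X | x (i + n) = true} := by
    intro x hx
    obtain ⟨i, hi, h⟩ := chi_neg_subset S _ hx
    simp only [Set.mem_iUnion]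
    rw [shift_iterate] at h
    exact ⟨i, hi, h⟩
  refine (measureReal_mono h1 (measure_ne_top _ _)).trans ((measureReal_biUnion_finset_le _ _).trans ?_)
  simp [nu_one]

lemma nu_chi_both_le (k : ℕ) (S T : Finset ℤ) (n : ℕ) :
    (nu k).real {x | chi S x = -1 ∧ chi T (shift^[n] x) = -1} ≤ ∑ i ∈ S, ∑ j ∈ T, sk k ((n : ℤ) + (j - i)) := by
  have h1 : {x | chi S x = -1 ∧ chi T (shift^[n] x) = -1} ⊆ ⋃ i ∈ S, ⋃ j ∈ T, {x : X | x i = true ∧ x (j + n) = true} := by
    rintro x ⟨hx1, hx2⟩
    obtain ⟨i, hi, h⟩ := chi_neg_subset S _ hx1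
    obtain ⟨j, hj, h'⟩ := chi_neg_subset T _ hx2
    rw [shift_iterate] at h'
    simp only [Set.mem_iUnion]
    exact ⟨i, hi, j, hj, h, h'⟩
  refine (measureReal_mono h1 (measure_ne_top _ _)).trans ((measureReal_biUnion_finset_le _ _).trans ?_)
  refine Finset.sum_le_sum (fun i _ => ?_)
  refine (measureReal_biUnion_finset_le _ _).trans ?_
  refine Finset.sum_le_sum (fun j _ => ?_)
  rw [nu_pair]
  apply le_of_eq
  congr 1
  ring

lemma sum_sk_le (l k : ℕ) (h : l ≤ k) (m : ℤ) : ∑ n ∈ Finset.range (2 ^ l), sk k ((n : ℤ) + m) ≤ 2 ^ l * Vk l := by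
  obtain ⟨d, rfl⟩ := Nat.exists_eq_add_of_le h
  have h1 : ∑ n ∈ Finset.range (2 ^ l), sk (l + d) ((n : ℤ) + m) ≤ Ak l m :=
    Finset.sum_le_sum (fun n _ => sk_antitone l d _)
  rw [Ak_const, Ak_eq] at h1
  exact h1

lemma sum_cov_pw (l k M : ℕ) (hM : Wk k ≤ M) (hlk : l ≤ k) (S T : Finset ℤ) :
    ∑ n ∈ Finset.range (2 ^ l), |∫ x, chi S x * chi T (shift^[n] x) ∂(pw k M M) -
      (∫ x, chi S x ∂(pw k M M)) * ∫ x, chi T (shift^[n] x) ∂(pw k M M)| ≤
      2 ^ l * (4 * (S.card * T.card) * Vk l + 4 * (S.card * T.card) / M) := by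
  have h0 : (0 : ℝ) < M := lt_of_lt_of_le (by have := one_le_Wk k; linarith) hM
  have h1 : ∀ n ∈ Finset.range (2 ^ l), |∫ x, chi S x * chi T (shift^[n] x) ∂(pw k M M) -
      (∫ x, chi S x ∂(pw k M M)) * ∫ x, chi T (shift^[n] x) ∂(pw k M M)| ≤
      4 * (∑ i ∈ S, ∑ j ∈ T, sk k ((n : ℤ) + (j - i))) + 4 * (S.card * T.card) / M := by
    intro n _
    refine (cov_pw k M hM (isChar_chi S) ((isChar_chi T).comp_shift n)).trans ?_
    have a1 := nu_chi_both_le k S T n
    have a2 := nu_chi_le k S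
    have a3 := nu_chi_shift_le k T n
    have a4 : (0 : ℝ) ≤ (nu k).real {x | chi T (shift^[n] x) = -1} := measureReal_nonneg
    gcongr
  refine (Finset.sum_le_sum h1).trans ?_
  rw [Finset.sum_add_distrib, Finset.sum_const, Finset.card_range, nsmul_eq_mul, ← Finset.mul_sum, Finset.sum_comm]
  have h2 : ∑ i ∈ S, ∑ n ∈ Finset.range (2 ^ l), ∑ j ∈ T, sk k ((n : ℤ) + (j - i)) ≤ S.card * (T.card * (2 ^ l * Vk l)) := by
    have : ∀ i ∈ S, ∑ n ∈ Finset.range (2 ^ l), ∑ j ∈ T, sk k ((n : ℤ) + (j - i)) ≤ T.card * (2 ^ l * Vk l) := by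
      intro i _
      rw [Finset.sum_comm]
      refine (Finset.sum_le_sum (fun j _ => sum_sk_le l k hlk (j - i))).trans ?_
      simp
    refine (Finset.sum_le_sum this).trans ?_
    simp
  push_cast
  calc _ ≤ 4 * (S.card * (T.card * (2 ^ l * Vk l))) + 2 ^ l * (4 * (S.card * T.card) / (M : ℝ)) := by gcongr
    _ = _ := by ring

/-! ### the limit measure -/

lemma Wk_le' (k : ℕ) : Wk k ≤ ((k + 1 : ℕ) : ℝ) := by
  push_cast; exact Wk_le k

noncomputable def ms (k : ℕ) : ProbabilityMeasure X :=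
  ⟨pw k (k + 1) (k + 1), pw_prob k (k + 1) (Wk_le' k) (k + 1)⟩

lemma exists_limit : ∃ (μ : ProbabilityMeasure X) (U : Ultrafilter ℕ), (U : Filter ℕ) ≤ atTop ∧ Tendsto ms U (𝓝 μ) := by
  obtain ⟨μ, hμ⟩ := exists_clusterPt_of_compactSpace (map ms atTop)
  obtain ⟨U, hU, hU2⟩ := mapClusterPt_iff_ultrafilter.1 hμ
  exact ⟨μ, U, hU, hU2⟩

section limit

variable {μ : ProbabilityMeasure X} {U : Ultrafilter ℕ} (hU : (U : Filter ℕ) ≤ atTop) (hlim : Tendsto ms U (𝓝 μ))

include hlim in
lemma lim_integral (f : X → ℝ) (hf : Continuous f) :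
    Tendsto (fun k => ∫ x, f x ∂(ms k : Measure X)) U (𝓝 (∫ x, f x ∂(μ : Measure X))) := by
  have h := ProbabilityMeasure.tendsto_iff_forall_integral_tendsto.1 hlim
  exact h (BoundedContinuousFunction.mkOfCompact ⟨f, hf⟩)

include hU in
lemma ev_ge (k0 : ℕ) : ∀ᶠ k in (U : Filter ℕ), k0 ≤ k := hU (eventually_ge_atTop k0)

include hlim in
lemma mu_shift : (μ : Measure X).map shift = μ := by
  have : IsProbabilityMeasure ((μ : Measure X).map shift) :=
    Measure.isProbabilityMeasure_map measurable_shift.aemeasurable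
  apply ext_of_forall_integral_eq_of_IsFiniteMeasure
  intro f
  rw [integral_map measurable_shift.aemeasurable f.continuous.measurable.aestronglyMeasurable]
  have h1 := lim_integral hlim (fun x => f (shift x)) (f.continuous.comp continuous_shift)
  have h2 := lim_integral hlim f f.continuous
  refine tendsto_nhds_unique h1 (h2.congr (fun k => ?_))
  have h3 : (ms k : Measure X).map shift = ms k := pw_shift k (k + 1) (Wk_le' k) (k + 1)
  conv_lhs => rw [← h3]
  rw [integral_map measurable_shift.aemeasurable f.continuous.measurable.aestronglyMeasurable]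

include hU hlim in
lemma mu_Ev (l : ℕ) : (μ : Measure X).real (Ev l)ᶜ ≤ 3 / Real.sqrt (l + 1) := by
  have h1 := ProbabilityMeasure.tendsto_measure_of_isClopen_of_tendsto hlim (isClopen_Ev l).compl
  have h2 : Tendsto (fun k => (ms k : Measure X).real (Ev l)ᶜ) U (𝓝 ((μ : Measure X).real (Ev l)ᶜ)) := by
    have := (NNReal.continuous_coe.tendsto _).comp h1
    exact this
  refine le_of_tendsto h2 ?_
  filter_upwards [ev_ge hU l] with k hk
  have h3 := pw_Ev l k (k + 1) (Wk_le' k) (k + 1)
  have h4 := nu_Ev_bound l k hk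
  have h5 : (0 : ℝ) < ((k + 1 : ℕ) : ℝ) := by positivity
  calc (ms k : Measure X).real (Ev l)ᶜ ≤ ((k + 1 : ℕ) : ℝ) * ((nu k).real (Ev l)ᶜ / ((k + 1 : ℕ) : ℝ)) := h3
    _ = (nu k).real (Ev l)ᶜ := by field_simp
    _ ≤ _ := h4

include hU hlim in
lemma mu_cov (S T : Finset ℤ) (l : ℕ) :
    ∑ n ∈ Finset.range (2 ^ l), |∫ x, chi S x * chi T (shift^[n] x) ∂(μ : Measure X) -
      (∫ x, chi S x ∂(μ : Measure X)) * ∫ x, chi T (shift^[n] x) ∂(μ : Measure X)| ≤
      2 ^ l * (4 * (S.card * T.card) * Vk l) := by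
  have hcs : ∀ n : ℕ, Continuous (fun x => chi T (shift^[n] x)) := fun n =>
    (continuous_chi T).comp (continuous_shift.iterate n)
  have h1 : Tendsto (fun k => ∑ n ∈ Finset.range (2 ^ l), |∫ x, chi S x * chi T (shift^[n] x) ∂(ms k : Measure X) -
      (∫ x, chi S x ∂(ms k : Measure X)) * ∫ x, chi T (shift^[n] x) ∂(ms k : Measure X)|) U
      (𝓝 (∑ n ∈ Finset.range (2 ^ l), |∫ x, chi S x * chi T (shift^[n] x) ∂(μ : Measure X) -
      (∫ x, chi S x ∂(μ : Measure X)) * ∫ x, chi T (shift^[n] x) ∂(μ : Measure X)|)) := by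
    refine tendsto_finsetSum _ (fun n _ => ?_)
    exact ((lim_integral hlim _ ((continuous_chi S).mul (hcs n))).sub
      ((lim_integral hlim _ (continuous_chi S)).mul (lim_integral hlim _ (hcs n)))).abs
  have h2 : Tendsto (fun k : ℕ => 2 ^ l * (4 * (S.card * T.card) * Vk l + 4 * (S.card * T.card) / ((k + 1 : ℕ) : ℝ))) U
      (𝓝 (2 ^ l * (4 * (S.card * T.card) * Vk l + 0))) := by
    refine Tendsto.const_mul _ (Tendsto.const_add _ ?_)
    refine Tendsto.mono_left ?_ hU
    have h3 : Tendsto (fun k : ℕ => ((k + 1 : ℕ) : ℝ)) atTop atTop :=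
      tendsto_natCast_atTop_atTop.comp (tendsto_add_atTop_nat 1)
    exact h3.const_div_atTop _
  rw [add_zero] at h2
  refine le_of_tendsto_of_tendsto h1 h2 ?_
  filter_upwards [ev_ge hU l] with k hk
  exact sum_cov_pw l k (k + 1) (Wk_le' k) hk S T

include hU hlim in
lemma mu_chi_zero : 0 ≤ ∫ x, chi {0} x ∂(μ : Measure X) ∧ ∫ x, chi {0} x ∂(μ : Measure X) ≤ Real.exp (-2) := by
  have h1 := lim_integral hlim _ (continuous_chi {0})
  have h2 : ∀ k, 1 ≤ k → 0 ≤ ∫ x, chi {0} x ∂(ms k : Measure X) ∧ ∫ x, chi {0} x ∂(ms k : Measure X) ≤ Real.exp (-2) := by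
    intro k hk
    have h3 : ∫ x, chi {0} x ∂(ms k : Measure X) = (1 - 2 * (1 / ((k + 1 : ℕ) : ℝ))) ^ (k + 1) := by
      have := (isChar_chi {0}).integral_pw k (k + 1) (Wk_le' k) (k + 1)
      have h5 : {x | chi {0} x = -1} = {x : X | x 0 = true} := by
        ext x
        simp only [chi, Finset.prod_singleton, Set.mem_ofPred_eq, sg]
        cases x 0 <;> simp <;> norm_num
      have h4 : (nu k).real {x | chi {0} x = -1} = 1 := by
        rw [h5]
        exact nu_one k 0
      rw [h4] at this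
      exact this
    rw [h3]
    have hk2 : (2 : ℝ) ≤ ((k + 1 : ℕ) : ℝ) := by exact_mod_cast (by omega : 2 ≤ k + 1)
    constructor
    · apply pow_nonneg
      rw [sub_nonneg, mul_one_div, div_le_one (by linarith)]
      exact hk2
    · have := Real.one_sub_div_pow_le_exp_neg hk2
      rwa [mul_one_div]
  constructor
  · refine ge_of_tendsto h1 ?_
    filter_upwards [ev_ge hU 1] with k hk
    exact (h2 k hk).1
  · refine le_of_tendsto h1 ?_
    filter_upwards [ev_ge hU 1] with k hk
    exact (h2 k hk).2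

end limit

end Pool.Agent.Work.MP_2e5000_an
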