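import Mathlib

set_option autoImplicit false

open MeasureTheory Filter Topology

namespace Pool.Agent.Work.MP_2e5000_an

/-- The configurations: two-sided sequences over `{0, 1}` (`true` is `1`), with the product
topology and its Borel (= product) sigma-algebra. -/
abbrev X : Type := ℤ → Bool

/-- The left shift `(σ x)_i = x_{i+1}`. -/
def shift (x : X) : X := fun i => x (i + 1)

/-- The two-neighbour XOR automaton `F(x)_i = x_i + x_{i+1} mod 2`. -/
def xorCA (x : X) : X := fun i => xor (x i) (x (i + 1))

/-- Weak mixing of a shift-invariant measure: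
`(1/N) ∑_{n<N} |μ(A ∩ σ^{-n} B) - μ(A) μ(B)| → 0` for all measurable `A`, `B`. -/
def WeaklyMixing (μ : Measure X) : Prop :=
  ∀ A B : Set X, MeasurableSet A → MeasurableSet B →
    Tendsto (fun N : ℕ => (∑ n ∈ Finset.range N,
      |μ.real (A ∩ shift^[n] ⁻¹' B) - μ.real A * μ.real B|) / N) atTop (𝓝 0)

end Pool.Agent.Work.MP_2e5000_an
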