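import Pool.Agent.Work.MP_2e5000_an.Construct

set_option autoImplicit false

open MeasureTheory Filter Topology

namespace Pool.Agent.Work.MP_2e5000_an

/-! ### Cesàro-null sequences -/

def CN (c : ℕ → ℝ) : Prop :=
  Tendsto (fun N : ℕ => (∑ n ∈ Finset.range N, |c n|) / N) atTop (𝓝 0)

lemma CN.add {c c' : ℕ → ℝ} (h : CN c) (h' : CN c') : CN (fun n => c n + c' n) := by
  have := Tendsto.add h h'
  rw [add_zero] at this
  refine squeeze_zero (fun N => by positivity) (fun N => ?_) this
  rw [← add_div, ← Finset.sum_add_distrib]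
  have : ∑ n ∈ Finset.range N, |c n + c' n| ≤ ∑ n ∈ Finset.range N, (|c n| + |c' n|) :=
    Finset.sum_le_sum (fun n _ => abs_add_le _ _)
  gcongr

lemma CN.const_mul {c : ℕ → ℝ} (h : CN c) (a : ℝ) : CN (fun n => a * c n) := by
  have := Tendsto.const_mul |a| h
  rw [mul_zero] at this
  refine this.congr (fun N => ?_)
  rw [← mul_div_assoc, Finset.mul_sum]
  simp only [abs_mul]

lemma CN.zero : CN (fun _ => 0) := by
  unfold CN; simp

lemma CN.sum {ι : Type*} (s : Finset ι) (c : ι → ℕ → ℝ) (h : ∀ i ∈ s, CN (c i)) :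
    CN (fun n => ∑ i ∈ s, c i n) := by
  classical
  induction s using Finset.induction_on with
  | empty => simpa using CN.zero
  | insert i s hi ih =>
    simp only [Finset.sum_insert hi]
    exact (h i (Finset.mem_insert_self i s)).add (ih (fun j hj => h j (Finset.mem_insert_of_mem hj)))

lemma CN.approx {c : ℕ → ℝ} (h : ∀ ε > 0, ∃ c', CN c' ∧ ∀ n, |c n - c' n| ≤ ε) : CN c := by
  unfold CN
  rw [Metric.tendsto_atTop]
  intro ε hε
  obtain ⟨c', h1, h2⟩ := h (ε / 2) (by linarith)
  obtain ⟨N0, hN0⟩ := Metric.tendsto_atTop.1 h1 (ε / 2) (by linarith)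
  refine ⟨N0 + 1, fun N hN => ?_⟩
  have h3 := hN0 N (by omega)
  rw [Real.dist_eq, sub_zero, abs_of_nonneg (by positivity)] at h3 ⊢
  have hNpos : (0 : ℝ) < N := by exact_mod_cast (by omega : 0 < N)
  have h4 : ∑ n ∈ Finset.range N, |c n| ≤ ∑ n ∈ Finset.range N, |c' n| + N * (ε / 2) := by
    have : ∑ n ∈ Finset.range N, |c n| ≤ ∑ n ∈ Finset.range N, (|c' n| + ε / 2) := by
      refine Finset.sum_le_sum (fun n _ => ?_)
      have := h2 n
      have h5 := abs_sub_abs_le_abs_sub (c n) (c' n)
      linarith
    rw [Finset.sum_add_distrib, Finset.sum_const, Finset.card_range, nsmul_eq_mul] at this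
    exact this
  calc (∑ n ∈ Finset.range N, |c n|) / N
      ≤ (∑ n ∈ Finset.range N, |c' n| + N * (ε / 2)) / N := by gcongr
    _ = (∑ n ∈ Finset.range N, |c' n|) / N + ε / 2 := by field_simp
    _ < ε := by linarith

lemma CN.of_dyadic {c : ℕ → ℝ} {V : ℕ → ℝ} (hV : Tendsto V atTop (𝓝 0))
    (h : ∀ l, ∑ n ∈ Finset.range (2 ^ l), |c n| ≤ 2 ^ l * V l) : CN c := by
  have hV0 : ∀ l, 0 ≤ V l := by
    intro l
    have h1 : 0 ≤ 2 ^ l * V l := le_trans (Finset.sum_nonneg (fun _ _ => abs_nonneg _)) (h l)
    have h2 : (0 : ℝ) < 2 ^ l := by positivity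
    exact nonneg_of_mul_nonneg_right h1 h2
  have hlog : Tendsto (fun N : ℕ => Nat.log 2 N + 1) atTop atTop := by
    refine tendsto_atTop.2 (fun b => ?_)
    filter_upwards [eventually_ge_atTop (2 ^ b)] with N hN
    have := Nat.le_log_of_pow_le (by norm_num : 1 < 2) hN
    omega
  have h3 := (hV.comp hlog).const_mul 2
  rw [mul_zero] at h3
  refine squeeze_zero' (Eventually.of_forall fun N => by positivity) ?_ h3
  filter_upwards [eventually_ge_atTop 1] with N hN
  have hNpos : (0 : ℝ) < N := by exact_mod_cast hN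
  have h4 : N < 2 ^ (Nat.log 2 N + 1) := Nat.lt_pow_succ_log_self (by norm_num) N
  have h5 : 2 ^ Nat.log 2 N ≤ N := Nat.pow_log_le_self 2 (by omega)
  have h6 : ∑ n ∈ Finset.range N, |c n| ≤ ∑ n ∈ Finset.range (2 ^ (Nat.log 2 N + 1)), |c n| := by
    refine Finset.sum_le_sum_of_subset_of_nonneg ?_ (fun _ _ _ => abs_nonneg _)
    intro n hn
    simp only [Finset.mem_range] at hn ⊢
    omega
  have h7 : (2 : ℝ) ^ (Nat.log 2 N + 1) ≤ 2 * N := by
    rw [pow_succ]
    have : ((2 : ℝ) ^ Nat.log 2 N) ≤ N := by exact_mod_cast h5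
    linarith
  rw [div_le_iff₀ hNpos]
  calc ∑ n ∈ Finset.range N, |c n| ≤ 2 ^ (Nat.log 2 N + 1) * V (Nat.log 2 N + 1) := h6.trans (h _)
    _ ≤ (2 * N) * V (Nat.log 2 N + 1) := by
      have := hV0 (Nat.log 2 N + 1)
      gcongr
    _ = 2 * ((V ∘ fun N => Nat.log 2 N + 1) N) * N := by simp only [Function.comp]; ring

/-! ### from cylinders to all measurable sets -/

def cyl (S : Finset ℤ) : Set X := {x | ∀ i ∈ S, x i = true}

lemma measurableSet_cyl (S : Finset ℤ) : MeasurableSet (cyl S) := by
  have : cyl S = ⋂ i ∈ S, {x : X | x i = true} := by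
    ext x; simp [cyl]
  rw [this]
  exact Finset.measurableSet_biInter _ (fun i _ => measurableSet_coord i)

lemma isPiSystem_cyl : IsPiSystem (Set.range cyl) := by
  rintro _ ⟨S, rfl⟩ _ ⟨T, rfl⟩ _
  refine ⟨S ∪ T, ?_⟩
  ext x
  simp only [cyl, Finset.mem_union, Set.mem_ofPred_eq, Set.mem_inter_iff]
  constructor
  · intro h
    exact ⟨fun i hi => h i (Or.inl hi), fun i hi => h i (Or.inr hi)⟩
  · rintro ⟨h1, h2⟩ i (hi | hi)
    · exact h1 i hi
    · exact h2 i hi

lemma generateFrom_cyl : (inferInstance : MeasurableSpace X) = MeasurableSpace.generateFrom (Set.range cyl) := by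
  apply le_antisymm
  · -- each coordinate is measurable for the generated sigma-algebra
    refine iSup_le (fun i => ?_)
    rw [MeasurableSpace.comap_le_iff_le_map]
    intro s _
    have hbase : @MeasurableSet X (MeasurableSpace.generateFrom (Set.range cyl)) {x : X | x i = true} := by
      apply MeasurableSpace.measurableSet_generateFrom
      exact ⟨{i}, by ext x; simp [cyl]⟩
    change @MeasurableSet X (MeasurableSpace.generateFrom (Set.range cyl)) ((fun x : X => x i) ⁻¹' s)
    have h4 : s = ∅ ∨ s = {true} ∨ s = {false} ∨ s = Set.univ := by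
      by_cases h1 : true ∈ s <;> by_cases h2 : false ∈ s
      · right; right; right; ext b; cases b <;> simp [h1, h2]
      · right; left; ext b; cases b <;> simp [h1, h2]
      · right; right; left; ext b; cases b <;> simp [h1, h2]
      · left; ext b; cases b <;> simp [h1, h2]
    rcases h4 with rfl | rfl | rfl | rfl
    · exact @MeasurableSet.empty X (MeasurableSpace.generateFrom (Set.range cyl))
    · exact hbase
    · have : (fun x : X => x i) ⁻¹' {false} = {x : X | x i = true}ᶜ := by
        ext x; simp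
      rw [this]
      exact @MeasurableSet.compl X _ (MeasurableSpace.generateFrom (Set.range cyl)) hbase
    · exact @MeasurableSet.univ X (MeasurableSpace.generateFrom (Set.range cyl))
  · apply MeasurableSpace.generateFrom_le
    rintro _ ⟨S, rfl⟩
    exact measurableSet_cyl S

lemma CN_of_cyl (μ : Measure X) [IsProbabilityMeasure μ] (Φ : Set X → ℕ → ℝ)
    (hcyl : ∀ S, CN (Φ (cyl S)))
    (hadd : ∀ A B, MeasurableSet A → MeasurableSet B → Disjoint A B → ∀ n, Φ (A ∪ B) n = Φ A n + Φ B n)
    (huniv : ∀ n, Φ Set.univ n = 0) (C : ℝ) (hC : ∀ A, MeasurableSet A → ∀ n, |Φ A n| ≤ C * μ.real A) :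
    ∀ A, MeasurableSet A → CN (Φ A) := by
  have hempty : ∀ n, Φ ∅ n = 0 := by
    intro n
    have := hadd ∅ ∅ MeasurableSet.empty MeasurableSet.empty (Set.disjoint_empty _) n
    rw [Set.union_self] at this
    linarith
  intro A hA
  induction A, hA using MeasurableSpace.induction_on_inter generateFrom_cyl isPiSystem_cyl with
  | empty =>
    have : Φ ∅ = fun _ => 0 := by funext n; exact hempty n
    rw [this]; exact CN.zero
  | basic t ht =>
    obtain ⟨S, rfl⟩ := ht
    exact hcyl S
  | compl t ht ih =>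
    have : Φ tᶜ = fun n => (-1) * Φ t n := by
      funext n
      have h1 := hadd t tᶜ ht ht.compl disjoint_compl_right n
      rw [Set.union_compl_self, huniv] at h1
      linarith
    rw [this]
    exact ih.const_mul (-1)
  | iUnion f hd hf ih =>
    -- finite unions
    have hfin : ∀ K : ℕ, ∀ n, Φ (⋃ i ∈ Finset.range K, f i) n = ∑ i ∈ Finset.range K, Φ (f i) n := by
      intro K n
      induction K with
      | zero => simp [hempty]
      | succ K ihK =>
        rw [Finset.sum_range_succ, ← ihK, Finset.range_add_one, Finset.set_biUnion_insert, Set.union_comm]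
        refine hadd _ _ (Finset.measurableSet_biUnion _ (fun i _ => hf i)) (hf K) ?_ n
        rw [Set.disjoint_iUnion₂_left]
        intro i hi
        apply hd
        simp only [Finset.mem_range] at hi
        omega
    apply CN.approx
    intro ε hε
    -- the tail is small
    have htail : ∃ K : ℕ, μ.real ((⋃ i, f i) \ ⋃ i ∈ Finset.range K, f i) ≤ ε / (|C| + 1) := by
      have h1 : Tendsto (fun K : ℕ => μ (⋃ i ∈ Finset.range K, f i)) atTop (𝓝 (μ (⋃ i, f i))) := by
        have h2 : ⋃ i, f i = ⋃ K : ℕ, ⋃ i ∈ Finset.range K, f i := by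
          ext x
          simp only [Set.mem_iUnion, Finset.mem_range]
          constructor
          · rintro ⟨i, hi⟩; exact ⟨i + 1, i, by omega, hi⟩
          · rintro ⟨_, i, _, hi⟩; exact ⟨i, hi⟩
        rw [h2]
        apply tendsto_measure_iUnion_atTop
        intro K K' hKK'
        refine Set.iUnion₂_subset (fun i hi => ?_)
        refine Set.subset_iUnion₂_of_subset i ?_ subset_rfl
        simp only [Finset.mem_range] at hi ⊢
        omega
      have h2 : Tendsto (fun K : ℕ => μ.real (⋃ i ∈ Finset.range K, f i)) atTop (𝓝 (μ.real (⋃ i, f i))) :=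
        (ENNReal.tendsto_toReal (measure_ne_top _ _)).comp h1
      have hpos : 0 < ε / (|C| + 1) := by positivity
      obtain ⟨K, hK⟩ := ((Metric.tendsto_atTop.1 h2) _ hpos)
      refine ⟨K, ?_⟩
      have h3 := hK K le_rfl
      rw [Real.dist_eq] at h3
      rw [measureReal_sdiff (Set.iUnion₂_subset (fun i _ => Set.subset_iUnion f i))
        (Finset.measurableSet_biUnion _ (fun i _ => hf i))]
      have := neg_abs_le (μ.real (⋃ i ∈ Finset.range K, f i) - μ.real (⋃ i, f i))
      linarith
    obtain ⟨K, hK⟩ := htail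
    refine ⟨fun n => ∑ i ∈ Finset.range K, Φ (f i) n, CN.sum _ _ (fun i _ => ih i), fun n => ?_⟩
    beta_reduce
    rw [← hfin K n]
    have hmU : MeasurableSet (⋃ i ∈ Finset.range K, f i) := Finset.measurableSet_biUnion _ (fun i _ => hf i)
    have hmA : MeasurableSet (⋃ i, f i) := MeasurableSet.iUnion hf
    have h5 := hadd (⋃ i ∈ Finset.range K, f i) ((⋃ i, f i) \ ⋃ i ∈ Finset.range K, f i) hmU
      (hmA.diff hmU) Set.disjoint_sdiff_right n
    rw [Set.union_sdiff_cancel (Set.iUnion₂_subset (fun i _ => Set.subset_iUnion f i))] at h5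
    rw [h5, add_sub_cancel_left]
    refine (hC _ (hmA.diff hmU) n).trans ?_
    calc C * μ.real ((⋃ i, f i) \ ⋃ i ∈ Finset.range K, f i)
        ≤ (|C| + 1) * (ε / (|C| + 1)) := by
          have : C ≤ |C| + 1 := by linarith [le_abs_self C]
          have : 0 ≤ |C| + 1 := by positivity
          gcongr
      _ = ε := by field_simp


/-! ### weak mixing -/

noncomputable def dcov (μ : Measure X) (A B : Set X) (n : ℕ) : ℝ :=
  μ.real (A ∩ shift^[n] ⁻¹' B) - μ.real A * μ.real B

lemma map_shift_iterate {μ : Measure X} (hμ : μ.map shift = μ) (n : ℕ) : μ.map (shift^[n]) = μ := by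
  induction n with
  | zero => simp
  | succ n ih =>
    rw [Function.iterate_succ, ← Measure.map_map (measurable_shift_iterate n) measurable_shift, hμ, ih]

lemma real_shift_preimage {μ : Measure X} (hμ : μ.map shift = μ) (n : ℕ) {B : Set X} (hB : MeasurableSet B) :
    μ.real (shift^[n] ⁻¹' B) = μ.real B := by
  have := map_measureReal_apply (μ := μ) (measurable_shift_iterate n) hB
  rw [map_shift_iterate hμ n] at this
  exact this.symm

lemma wm_of_cyl (μ : Measure X) [IsProbabilityMeasure μ] (hμ : μ.map shift = μ)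
    (h : ∀ S T, CN (dcov μ (cyl S) (cyl T))) : WeaklyMixing μ := by
  have h1 : ∀ T : Finset ℤ, ∀ A, MeasurableSet A → CN (dcov μ A (cyl T)) := by
    intro T
    refine CN_of_cyl μ (fun A => dcov μ A (cyl T)) (fun S => h S T) ?_ ?_ 2 ?_
    · intro A B hA hB hd n
      unfold dcov
      rw [Set.union_inter_distrib_right, measureReal_union (Set.disjoint_of_subset Set.inter_subset_left Set.inter_subset_left hd)
        (hB.inter ((measurable_shift_iterate n) (measurableSet_cyl T))), measureReal_union hd hB]
      ring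
    · intro n
      unfold dcov
      rw [Set.univ_inter, real_shift_preimage hμ n (measurableSet_cyl T), probReal_univ]
      ring
    · intro A hA n
      unfold dcov
      have a1 : μ.real (A ∩ shift^[n] ⁻¹' cyl T) ≤ μ.real A := measureReal_mono Set.inter_subset_left (measure_ne_top _ _)
      have a2 : 0 ≤ μ.real (A ∩ shift^[n] ⁻¹' cyl T) := measureReal_nonneg
      have a3 : μ.real (cyl T) ≤ 1 := measureReal_le_one
      have a4 : 0 ≤ μ.real (cyl T) := measureReal_nonneg
      have a5 : 0 ≤ μ.real A := measureReal_nonneg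
      have a6 : μ.real A * μ.real (cyl T) ≤ μ.real A := mul_le_of_le_one_right a5 a3
      have a7 : 0 ≤ μ.real A * μ.real (cyl T) := by positivity
      rw [abs_le]; constructor <;> linarith
  intro A B hA hB
  have h2 : ∀ B, MeasurableSet B → CN (dcov μ A B) := by
    refine CN_of_cyl μ (fun B => dcov μ A B) (fun T => h1 T A hA) ?_ ?_ 2 ?_
    · intro B B' hB hB' hd n
      unfold dcov
      rw [Set.preimage_union, Set.inter_union_distrib_left, measureReal_union (Set.disjoint_of_subset Set.inter_subset_right Set.inter_subset_right (hd.preimage _))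
        (hA.inter ((measurable_shift_iterate n) hB')), measureReal_union hd hB']
      ring
    · intro n
      unfold dcov
      rw [Set.preimage_univ, Set.inter_univ, probReal_univ]
      ring
    · intro B hB n
      unfold dcov
      have a1 : μ.real (A ∩ shift^[n] ⁻¹' B) ≤ μ.real B := by
        rw [← real_shift_preimage hμ n hB]
        exact measureReal_mono Set.inter_subset_right (measure_ne_top _ _)
      have a2 : 0 ≤ μ.real (A ∩ shift^[n] ⁻¹' B) := measureReal_nonneg
      have a3 : μ.real A ≤ 1 := measureReal_le_one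
      have a4 : 0 ≤ μ.real B := measureReal_nonneg
      have a5 : 0 ≤ μ.real A := measureReal_nonneg
      have a6 : μ.real A * μ.real B ≤ μ.real B := mul_le_of_le_one_left a4 a3
      have a7 : 0 ≤ μ.real A * μ.real B := by positivity
      rw [abs_le]; constructor <;> linarith
  exact h2 B hB

/-- coefficients of the Walsh expansion of a cylinder -/
noncomputable def wc (S t : Finset ℤ) : ℝ := (-1 / 2) ^ t.card * (1 / 2) ^ (S \ t).card

lemma ind_cyl (S : Finset ℤ) (x : X) :
    (cyl S).indicator (fun _ => (1 : ℝ)) x = ∑ t ∈ S.powerset, wc S t * chi t x := by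
  have h1 : (cyl S).indicator (fun _ => (1 : ℝ)) x = ∏ i ∈ S, ((-1 / 2) * sg (x i) + 1 / 2) := by
    by_cases hx : x ∈ cyl S
    · rw [Set.indicator_of_mem hx]
      symm
      refine Finset.prod_eq_one (fun i hi => ?_)
      rw [hx i hi]; simp only [sg, if_true]; norm_num
    · rw [Set.indicator_of_notMem hx]
      symm
      simp only [cyl, Set.mem_ofPred_eq, not_forall] at hx
      obtain ⟨i, hi, hx⟩ := hx
      refine Finset.prod_eq_zero hi ?_
      have : x i = false := by simpa using hx
      rw [this]; simp only [sg]; norm_num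
  rw [h1, Finset.prod_add]
  refine Finset.sum_congr rfl (fun t _ => ?_)
  rw [Finset.prod_mul_distrib, Finset.prod_const, Finset.prod_const]
  unfold wc chi
  ring

lemma integrable_chi_mul (μ : Measure X) [IsProbabilityMeasure μ] (s t : Finset ℤ) (n : ℕ) :
    Integrable (fun x => chi s x * chi t (shift^[n] x)) μ :=
  ((isChar_chi s).mul' ((isChar_chi t).comp_shift n)).integrable μ

lemma dcov_cyl (μ : Measure X) [IsProbabilityMeasure μ] (hμ : μ.map shift = μ) (S T : Finset ℤ) (n : ℕ) :
    dcov μ (cyl S) (cyl T) n = ∑ s ∈ S.powerset, ∑ t ∈ T.powerset, (wc S s * wc T t) *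
      (∫ x, chi s x * chi t (shift^[n] x) ∂μ - (∫ x, chi s x ∂μ) * ∫ x, chi t (shift^[n] x) ∂μ) := by
  have hone : ∀ S : Finset ℤ, ∀ m : ℕ, μ.real (shift^[m] ⁻¹' cyl S) = ∑ s ∈ S.powerset, wc S s * ∫ x, chi s (shift^[m] x) ∂μ := by
    intro S m
    rw [← integral_indicator_one ((measurable_shift_iterate m) (measurableSet_cyl S))]
    have : ∀ x, (shift^[m] ⁻¹' cyl S).indicator (1 : X → ℝ) x = ∑ s ∈ S.powerset, wc S s * chi s (shift^[m] x) := by
      intro x
      rw [← ind_cyl]
      rfl
    simp_rw [this]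
    rw [integral_finsetSum]
    · simp_rw [integral_const_mul]
    · intro s _
      exact (((isChar_chi s).comp_shift m).integrable μ).const_mul _
  have htwo : μ.real (cyl S ∩ shift^[n] ⁻¹' cyl T) = ∑ s ∈ S.powerset, ∑ t ∈ T.powerset, (wc S s * wc T t) *
      ∫ x, chi s x * chi t (shift^[n] x) ∂μ := by
    rw [← integral_indicator_one ((measurableSet_cyl S).inter ((measurable_shift_iterate n) (measurableSet_cyl T)))]
    have : ∀ x, (cyl S ∩ shift^[n] ⁻¹' cyl T).indicator (1 : X → ℝ) x = ∑ s ∈ S.powerset, ∑ t ∈ T.powerset, (wc S s * wc T t) * (chi s x * chi t (shift^[n] x)) := by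
      intro x
      have e1 : (cyl S ∩ shift^[n] ⁻¹' cyl T).indicator (1 : X → ℝ) x =
          (cyl S).indicator (fun _ => (1 : ℝ)) x * (cyl T).indicator (fun _ => (1 : ℝ)) (shift^[n] x) := by
        simp only [Set.indicator, Set.mem_inter_iff, Set.mem_preimage, Pi.one_apply]
        by_cases h1 : x ∈ cyl S <;> by_cases h2 : shift^[n] x ∈ cyl T <;> simp [h1, h2]
      rw [e1, ind_cyl, ind_cyl, Finset.sum_mul_sum]
      refine Finset.sum_congr rfl (fun s _ => Finset.sum_congr rfl (fun t _ => ?_))
      ring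
    simp_rw [this]
    rw [integral_finsetSum]
    · refine Finset.sum_congr rfl (fun s _ => ?_)
      rw [integral_finsetSum]
      · simp_rw [integral_const_mul]
      · intro t _
        exact (integrable_chi_mul μ s t n).const_mul _
    · intro s _
      refine integrable_finsetSum _ (fun t _ => ?_)
      exact (integrable_chi_mul μ s t n).const_mul _
  unfold dcov
  rw [htwo]
  have e0 := hone S 0
  simp only [Function.iterate_zero, Set.preimage_id, id] at e0
  rw [← real_shift_preimage hμ n (measurableSet_cyl T), hone T n, e0, Finset.sum_mul_sum, ← Finset.sum_sub_distrib]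
  refine Finset.sum_congr rfl (fun s _ => ?_)
  rw [← Finset.sum_sub_distrib]
  refine Finset.sum_congr rfl (fun t _ => ?_)
  ring

section limit

variable {μ : ProbabilityMeasure X} {U : Ultrafilter ℕ} (hU : (U : Filter ℕ) ≤ atTop) (hlim : Tendsto ms U (𝓝 μ))

include hU hlim in
lemma mu_weaklyMixing : WeaklyMixing (μ : Measure X) := by
  refine wm_of_cyl _ (mu_shift hlim) (fun S T => ?_)
  have h1 : dcov (μ : Measure X) (cyl S) (cyl T) = fun n => ∑ s ∈ S.powerset, ∑ t ∈ T.powerset, (wc S s * wc T t) *
      (∫ x, chi s x * chi t (shift^[n] x) ∂(μ : Measure X) - (∫ x, chi s x ∂(μ : Measure X)) * ∫ x, chi t (shift^[n] x) ∂(μ : Measure X)) :=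
    funext (fun n => dcov_cyl _ (mu_shift hlim) S T n)
  rw [h1]
  refine CN.sum _ _ (fun s _ => CN.sum _ _ (fun t _ => CN.const_mul ?_ _))
  refine CN.of_dyadic (V := fun l => 4 * (s.card * t.card) * Vk l) ?_ (fun l => mu_cov hU hlim s t l)
  simpa using tendsto_Vk.const_mul (4 * ((s.card : ℝ) * t.card))

end limit

/-! ### the automaton -/

lemma xorCA_iterate_two_pow (l : ℕ) (x : X) (i : ℤ) :
    (xorCA^[2 ^ l] x) i = xor (x i) (x (i + 2 ^ l)) := by
  induction l generalizing x i with
  | zero => simp [xorCA]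
  | succ l ih =>
    rw [pow_succ, mul_two, Function.iterate_add_apply, ih, ih, ih]
    have : i + 2 ^ l + 2 ^ l = i + 2 ^ (l + 1) := by rw [pow_succ]; ring
    rw [this]
    cases x i <;> cases x (i + 2 ^ l) <;> cases x (i + 2 ^ (l + 1)) <;> rfl

lemma xorCA_dep (m : ℕ) (y : X) (a : ℤ) (h : ∀ i : ℕ, i ≤ m → y (a + i) = false) : (xorCA^[m] y) a = false := by
  induction m generalizing y with
  | zero => simpa using h 0 le_rfl
  | succ m ih =>
    rw [Function.iterate_succ_apply]
    apply ih
    intro i hi
    unfold xorCA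
    have h1 := h i (by omega)
    have h2 := h (i + 1) (by omega)
    push_cast at h2
    rw [← add_assoc] at h2
    rw [h1, h2]; rfl

lemma xorCA_Ev (l n : ℕ) (h1 : 2 ^ l ≤ n) (h2 : n < 2 ^ (l + 1)) (x : X) (hx : x ∈ Ev l) : (xorCA^[n] x) 0 = false := by
  obtain ⟨m, rfl⟩ := Nat.exists_eq_add_of_le h1
  rw [add_comm, Function.iterate_add_apply]
  apply xorCA_dep
  intro i hi
  rw [zero_add, xorCA_iterate_two_pow]
  have : i < 2 ^ l := by rw [pow_succ] at h2; omega
  rw [← hx i this]
  simp

lemma xorCA_shift (n : ℕ) (x : X) (i : ℤ) : (xorCA^[n] (shift x)) i = (xorCA^[n] x) (i + 1) := by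
  induction n generalizing x with
  | zero => rfl
  | succ n ih =>
    rw [Function.iterate_succ_apply, Function.iterate_succ_apply]
    have : xorCA (shift x) = shift (xorCA x) := rfl
    rw [this, ih]

lemma continuous_xorCA : Continuous xorCA := by
  unfold xorCA
  refine continuous_pi (fun i => ?_)
  have h : Continuous (fun p : Bool × Bool => xor p.1 p.2) := continuous_of_discreteTopology
  exact h.comp (g := fun p : Bool × Bool => xor p.1 p.2) (f := fun x : ℤ → Bool => (x i, x (i + 1)))
    (Continuous.prodMk (continuous_apply i) (continuous_apply (i + 1)))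

lemma measurableSet_CA (n : ℕ) (j : ℤ) : MeasurableSet {x : X | (xorCA^[n] x) j = true} := by
  have : Continuous (fun x : X => (xorCA^[n] x) j) := (continuous_apply j).comp (continuous_xorCA.iterate n)
  exact this.measurable (measurableSet_singleton true)

lemma CA_inv {μ : Measure X} (hμ : μ.map shift = μ) (n : ℕ) (j : ℤ) :
    μ.real {x : X | (xorCA^[n] x) j = true} = μ.real {x : X | (xorCA^[n] x) 0 = true} := by
  have step : ∀ j : ℤ, μ.real {x : X | (xorCA^[n] x) (j + 1) = true} = μ.real {x : X | (xorCA^[n] x) j = true} := by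
    intro j
    have := real_shift_preimage hμ 1 (measurableSet_CA n j)
    rw [← this]
    congr 1
    ext x
    simp only [Function.iterate_one, Set.mem_preimage, Set.mem_ofPred_eq, xorCA_shift]
  induction j using Int.induction_on with
  | zero => rfl
  | succ m ih => rw [step, ih]
  | pred m ih =>
    have := step (-(m : ℤ) - 1)
    rw [sub_add_cancel] at this
    rw [← this, ih]

section limit

variable {μ : ProbabilityMeasure X} {U : Ultrafilter ℕ} (hU : (U : Filter ℕ) ≤ atTop) (hlim : Tendsto ms U (𝓝 μ))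

include hU hlim in
lemma CA_bound (n : ℕ) (hn : 1 ≤ n) (j : ℤ) :
    (μ : Measure X).real {x : X | (xorCA^[n] x) j = true} ≤ 3 / Real.sqrt (Nat.log 2 n + 1) := by
  rw [CA_inv (mu_shift hlim) n j]
  refine le_trans (measureReal_mono ?_ (measure_ne_top _ _)) (mu_Ev hU hlim (Nat.log 2 n))
  intro x hx hxE
  have := xorCA_Ev (Nat.log 2 n) n (Nat.pow_log_le_self 2 (by omega)) (Nat.lt_pow_succ_log_self (by norm_num) n) x hxE
  simp only [Set.mem_ofPred_eq] at hx
  rw [hx] at this
  exact Bool.noConfusion this

include hU hlim in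
lemma CA_tendsto (j : ℤ) : Tendsto (fun n : ℕ => (μ : Measure X).real {x : X | (xorCA^[n] x) j = true}) atTop (𝓝 0) := by
  have hlog : Tendsto (fun N : ℕ => Nat.log 2 N) atTop atTop := by
    refine tendsto_atTop.2 (fun b => ?_)
    filter_upwards [eventually_ge_atTop (2 ^ b)] with N hN
    exact Nat.le_log_of_pow_le (by norm_num : 1 < 2) hN
  have h1 : Tendsto (fun l : ℕ => 3 / Real.sqrt ((l : ℝ) + 1)) atTop (𝓝 0) := by
    have h2 : Tendsto (fun l : ℕ => Real.sqrt ((l : ℝ) + 1)) atTop atTop :=
      Real.tendsto_sqrt_atTop.comp (tendsto_atTop_add_const_right _ _ tendsto_natCast_atTop_atTop)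
    exact h2.const_div_atTop 3
  refine squeeze_zero' (Eventually.of_forall fun n => measureReal_nonneg) ?_ (h1.comp hlog)
  filter_upwards [eventually_ge_atTop 1] with n hn
  exact CA_bound hU hlim n hn j

include hU hlim in
lemma mu_converges (f : X → ℝ) (hf : Continuous f) :
    Tendsto (fun n : ℕ => ∫ x, f (xorCA^[n] x) ∂(μ : Measure X)) atTop (𝓝 (f (fun _ => false))) := by
  obtain ⟨C, hC⟩ : ∃ C, ∀ x, |f x| ≤ C := by
    obtain ⟨C, hC⟩ := isCompact_univ.exists_bound_of_continuousOn (f := f) hf.continuousOn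
    exact ⟨C, fun x => hC x (Set.mem_univ x)⟩
  have hC0 : 0 ≤ C := (abs_nonneg _).trans (hC (fun _ => false))
  rw [Metric.tendsto_atTop]
  intro ε hε
  -- a neighbourhood of the zero configuration
  obtain ⟨S, hS⟩ : ∃ S : Finset ℤ, ∀ y : X, (∀ i ∈ S, y i = false) → |f y - f (fun _ => false)| < ε / 3 := by
    have hopen : IsOpen {y : X | |f y - f (fun _ => false)| < ε / 3} :=
      isOpen_lt (by fun_prop) continuous_const
    obtain ⟨I, u, hu, hsub⟩ := isOpen_pi_iff.1 hopen (fun _ => false) (by simp; linarith)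
    refine ⟨I, fun y hy => ?_⟩
    apply hsub
    intro i hi
    rw [hy i hi]
    exact (hu i hi).2
  have h1 : Tendsto (fun n : ℕ => 2 * C * ∑ i ∈ S, (μ : Measure X).real {x : X | (xorCA^[n] x) i = true}) atTop (𝓝 0) := by
    have h2 := (tendsto_finsetSum S (fun i _ => CA_tendsto hU hlim i)).const_mul (2 * C)
    simpa using h2
  obtain ⟨N, hN⟩ := Metric.tendsto_atTop.1 h1 (ε / 3) (by linarith)
  refine ⟨N, fun n hn => ?_⟩
  have h3 := hN n hn
  rw [Real.dist_eq, sub_zero] at h3
  have h3' := (le_abs_self _).trans_lt h3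
  have hcont : Continuous (fun x : X => f (xorCA^[n] x)) := hf.comp (continuous_xorCA.iterate n)
  have hint : Integrable (fun x : X => f (xorCA^[n] x)) (μ : Measure X) :=
    Integrable.of_bound hcont.measurable.aestronglyMeasurable C (Eventually.of_forall fun x => hC _)
  have hbad : MeasurableSet (⋃ i ∈ S, {x : X | (xorCA^[n] x) i = true}) :=
    Finset.measurableSet_biUnion _ (fun i _ => measurableSet_CA n i)
  have h4 : ∀ x : X, |f (xorCA^[n] x) - f (fun _ => false)| ≤ ε / 3 + (⋃ i ∈ S, {x : X | (xorCA^[n] x) i = true}).indicator (fun _ => 2 * C) x := by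
    intro x
    by_cases hx : x ∈ ⋃ i ∈ S, {x : X | (xorCA^[n] x) i = true}
    · rw [Set.indicator_of_mem hx]
      have a1 := hC (xorCA^[n] x)
      have a2 := hC (fun _ => false)
      have := abs_sub (f (xorCA^[n] x)) (f (fun _ => false))
      linarith
    · rw [Set.indicator_of_notMem hx]
      have := hS (xorCA^[n] x) (fun i hi => by
        simp only [Set.mem_iUnion, not_exists] at hx
        have := hx i hi
        simpa using this)
      linarith
  have h5 : |∫ x, f (xorCA^[n] x) ∂(μ : Measure X) - f (fun _ => false)| ≤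
      ε / 3 + 2 * C * (μ : Measure X).real (⋃ i ∈ S, {x : X | (xorCA^[n] x) i = true}) := by
    have e1 : ∫ x, f (xorCA^[n] x) ∂(μ : Measure X) - f (fun _ => false) = ∫ x, (f (xorCA^[n] x) - f (fun _ => false)) ∂(μ : Measure X) := by
      rw [integral_sub hint (integrable_const _)]
      simp
    rw [e1]
    refine (abs_integral_le_integral_abs).trans ?_
    have e2 : Integrable (fun x : X => ε / 3 + (⋃ i ∈ S, {x : X | (xorCA^[n] x) i = true}).indicator (fun _ => 2 * C) x) (μ : Measure X) :=
      (integrable_const _).add ((integrable_const _).indicator hbad)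
    refine (integral_mono (hint.sub (integrable_const _)).abs e2 h4).trans ?_
    rw [integral_add (integrable_const _) ((integrable_const _).indicator hbad), integral_indicator_const _ hbad]
    simp only [integral_const, probReal_univ, smul_eq_mul, one_mul]
    linarith [mul_comm (2 * C) ((μ : Measure X).real (⋃ i ∈ S, {x : X | (xorCA^[n] x) i = true}))]
  have h6 : (μ : Measure X).real (⋃ i ∈ S, {x : X | (xorCA^[n] x) i = true}) ≤ ∑ i ∈ S, (μ : Measure X).real {x : X | (xorCA^[n] x) i = true} :=
    measureReal_biUnion_finset_le _ _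
  rw [Real.dist_eq]
  have h7 : 2 * C * (μ : Measure X).real (⋃ i ∈ S, {x : X | (xorCA^[n] x) i = true}) ≤ 2 * C * ∑ i ∈ S, (μ : Measure X).real {x : X | (xorCA^[n] x) i = true} := by
    gcongr
  linarith

end limit

/-! ### no atoms -/

lemma noAtom_of_weaklyMixing (μ : Measure X) [IsProbabilityMeasure μ] (hw : WeaklyMixing μ)
    (hne : ∀ x, μ.real {x} ≠ 1) (x : X) : μ {x} = 0 := by
  by_contra hx
  set a := μ.real {x} with ha
  have ha0 : 0 < a := by
    rw [ha, measureReal_def]
    exact ENNReal.toReal_pos hx (measure_ne_top _ _)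
  have ha1 : a < 1 := lt_of_le_of_ne measureReal_le_one (hne x)
  set c := min (a - a * a) (a * a) with hc
  have hc0 : 0 < c := lt_min (by nlinarith) (by positivity)
  have h1 : ∀ n : ℕ, c ≤ |μ.real ({x} ∩ shift^[n] ⁻¹' {x}) - μ.real {x} * μ.real {x}| := by
    intro n
    by_cases hn : shift^[n] x = x
    · have : ({x} : Set X) ∩ shift^[n] ⁻¹' {x} = {x} := by
        ext y
        simp only [Set.mem_inter_iff, Set.mem_singleton_iff, Set.mem_preimage]
        constructor
        · exact fun h => h.1
        · rintro rfl; exact ⟨rfl, hn⟩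
      rw [this, ← ha]
      exact (min_le_left _ _).trans (le_abs_self _)
    · have : ({x} : Set X) ∩ shift^[n] ⁻¹' {x} = ∅ := by
        ext y
        simp only [Set.mem_inter_iff, Set.mem_singleton_iff, Set.mem_preimage, Set.mem_empty_iff_false, iff_false]
        rintro ⟨rfl, h⟩; exact hn h
      rw [this, ← ha, measureReal_empty, zero_sub, abs_neg, abs_of_pos (by positivity)]
      exact min_le_right _ _
  have h2 := hw {x} {x} (measurableSet_singleton x) (measurableSet_singleton x)
  have h3 : ∀ᶠ N : ℕ in atTop, c ≤ (∑ n ∈ Finset.range N, |μ.real ({x} ∩ shift^[n] ⁻¹' {x}) - μ.real {x} * μ.real {x}|) / N := by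
    filter_upwards [eventually_ge_atTop 1] with N hN
    have hN' : (0 : ℝ) < N := by exact_mod_cast hN
    rw [le_div_iff₀ hN']
    calc c * N = ∑ n ∈ Finset.range N, c := by rw [Finset.sum_const, Finset.card_range, nsmul_eq_mul, mul_comm]
      _ ≤ _ := Finset.sum_le_sum (fun n _ => h1 n)
  have := ge_of_tendsto h2 h3
  linarith

/-- There is a shift-invariant, weakly mixing, non-atomic probability measure on `{0,1}^ℤ` whose
images under the XOR automaton converge to the point mass at the zero configuration. -/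
theorem main : ∃ μ : Measure X, IsProbabilityMeasure μ ∧ μ.map shift = μ ∧ WeaklyMixing μ ∧
    (∀ x, μ {x} = 0) ∧
    ∀ f : X → ℝ, Continuous f →
      Tendsto (fun n : ℕ => ∫ x, f x ∂(μ.map (xorCA^[n]))) atTop (𝓝 (f (fun _ => false))) := by
  obtain ⟨μ, U, hU, hlim⟩ := exists_limit
  have hw := mu_weaklyMixing hU hlim
  refine ⟨(μ : Measure X), inferInstance, mu_shift hlim, hw, ?_, ?_⟩
  · refine noAtom_of_weaklyMixing _ hw (fun x hx => ?_)
    obtain ⟨h1, h2⟩ := mu_chi_zero hU hlim
    have h3 : ∫ y, chi {0} y ∂(μ : Measure X) = chi {0} x := by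
      have hae : ∀ᵐ y ∂(μ : Measure X), y = x := by
        have : (μ : Measure X) {x}ᶜ = 0 := by
          rw [prob_compl_eq_zero_iff (measurableSet_singleton x)]
          rw [measureReal_def] at hx
          rw [← ENNReal.toReal_eq_one_iff]
          exact hx
        exact this
      have : ∀ᵐ y ∂(μ : Measure X), chi {0} y = chi {0} x := by
        filter_upwards [hae] with y hy
        rw [hy]
      rw [integral_congr_ae this]
      simp
    rw [h3] at h1 h2
    have h4 : Real.exp (-2) < 1 := by
      rw [Real.exp_lt_one_iff]; norm_num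
    rcases (isChar_chi {0}).sq x with h | h
    · rw [h] at h2; linarith
    · rw [h] at h1; linarith
  · intro f hf
    refine (mu_converges hU hlim f hf).congr (fun n => ?_)
    rw [integral_map (continuous_xorCA.iterate n).measurable.aemeasurable hf.measurable.aestronglyMeasurable]

end Pool.Agent.Work.MP_2e5000_an
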